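import Pool.Agent.H.MP_89f84f_ag.Iter

/-!
# Three collinear points and their doubles

`n η² = f x` is the twist of the curve `y² = f x = x³ + a x + b` by `n`. If the points `(xᵢ, ηᵢ)`,
`i = 1, 2, 3`, lie on the line `η = μ x + ν`, then their doubles are collinear.
-/

namespace TZ

open WRes

variable {A : Type*} [Field A]

theorem vieta {a b n μ ν x1 x2 x3 : A} (h12 : x1 ≠ x2) (h13 : x1 ≠ x3) (h23 : x2 ≠ x3)
    (h1 : n * (μ * x1 + ν) ^ 2 = ff a b x1) (h2 : n * (μ * x2 + ν) ^ 2 = ff a b x2)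
    (h3 : n * (μ * x3 + ν) ^ 2 = ff a b x3) :
    x1 + x2 + x3 = n * μ ^ 2 ∧ x1 * x2 + x1 * x3 + x2 * x3 = a - 2 * n * μ * ν := by
  unfold ff at h1 h2 h3
  have e12 : x1 ^ 2 + x1 * x2 + x2 ^ 2 + a = n * (μ ^ 2 * (x1 + x2) + 2 * μ * ν) := by
    refine mul_left_cancel₀ (sub_ne_zero.2 h12) ?_
    linear_combination h2 - h1
  have e13 : x1 ^ 2 + x1 * x3 + x3 ^ 2 + a = n * (μ ^ 2 * (x1 + x3) + 2 * μ * ν) := by
    refine mul_left_cancel₀ (sub_ne_zero.2 h13) ?_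
    linear_combination h3 - h1
  have e : x1 + x2 + x3 = n * μ ^ 2 := by
    refine mul_left_cancel₀ (sub_ne_zero.2 h23) ?_
    linear_combination e12 - e13
  refine ⟨e, ?_⟩
  linear_combination (x1 + x2) * e - e12

/-- The slope of the tangent. -/
theorem dl_eq [CharZero A] {a b n η x : A} (hn : n ≠ 0) (hη : η ≠ 0) (h : n * η ^ 2 = ff a b x) :
    dl a b x = n * ((3 * x ^ 2 + a) / (2 * n * η)) ^ 2 - 2 * x := by
  unfold dl
  rw [← h]
  field_simp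
  unfold ff at h
  linear_combination (32 * x) * h

theorem ps_eq [CharZero A] {a b n η x : A} (hn : n ≠ 0) (hη : η ≠ 0) (h : n * η ^ 2 = ff a b x) :
    ps a b x / (8 * ff a b x ^ 2) * η =
      -(η + (3 * x ^ 2 + a) / (2 * n * η) * (dl a b x - x)) := by
  rw [dl_eq hn hη h, ← h]
  field_simp
  have e : b = n * η ^ 2 - x ^ 3 - a * x := by
    unfold ff at h
    linear_combination -h
  unfold ps
  rw [e]
  ring

/-- The doubles of three collinear points are collinear. -/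
theorem tang [CharZero A] {a b n μ ν x1 x2 x3 d1 d2 d3 : A} (hn : n ≠ 0)
    (h12 : x1 ≠ x2) (h13 : x1 ≠ x3) (h23 : x2 ≠ x3)
    (h1 : n * (μ * x1 + ν) ^ 2 = ff a b x1) (h2 : n * (μ * x2 + ν) ^ 2 = ff a b x2)
    (h3 : n * (μ * x3 + ν) ^ 2 = ff a b x3)
    (e1 : μ * x1 + ν ≠ 0) (e2 : μ * x2 + ν ≠ 0) (e3 : μ * x3 + ν ≠ 0)
    (hd1 : 2 * n * (μ * x1 + ν) * d1 = 3 * x1 ^ 2 + a - 2 * n * μ * (μ * x1 + ν))
    (hd2 : 2 * n * (μ * x2 + ν) * d2 = 3 * x2 ^ 2 + a - 2 * n * μ * (μ * x2 + ν))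
    (hd3 : 2 * n * (μ * x3 + ν) * d3 = 3 * x3 ^ 2 + a - 2 * n * μ * (μ * x3 + ν)) :
    ps a b x1 / (8 * ff a b x1 ^ 2) * (μ * x1 + ν) =
      -(μ + (d1 + d2 + d3)) * dl a b x1 -
        (ν - (d1 * x1 + d2 * x2 + d3 * x3) + n * (d1 * d2 * d3)) := by
  obtain ⟨v1, v2⟩ := vieta h12 h13 h23 h1 h2 h3
  have p1 : 2 * n * (μ * x1 + ν) * d1 = (x1 - x2) * (x1 - x3) := by
    rw [hd1]
    linear_combination (-2 * x1) * v1 - v2 + 2 * x1 * v1 + 2 * x1 * v1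
  have p2 : 2 * n * (μ * x2 + ν) * d2 = (x2 - x1) * (x2 - x3) := by
    rw [hd2]
    linear_combination (2 * x2) * v1 - v2
  have p3 : 2 * n * (μ * x3 + ν) * d3 = (x3 - x1) * (x3 - x2) := by
    rw [hd3]
    linear_combination (2 * x3) * v1 - v2
  have hl : (3 * x1 ^ 2 + a) / (2 * n * (μ * x1 + ν)) = μ + d1 := by
    rw [div_eq_iff (mul_ne_zero (mul_ne_zero two_ne_zero hn) e1)]
    linear_combination -hd1
  have hX : dl a b x1 = x2 + x3 - x1 + (2 * n * μ * d1 + n * d1 ^ 2) := by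
    rw [dl_eq hn e1 h1, hl]
    linear_combination -v1
  rw [ps_eq hn e1 h1, hl]
  have key : d2 * ((x3 - x1) + (2 * n * μ * d1 + n * d1 ^ 2)) +
      d3 * ((x2 - x1) + (2 * n * μ * d1 + n * d1 ^ 2)) + n * (d1 * d2 * d3) = 0 := by
    have h4 : (2 * n * (μ * x2 + ν)) * (2 * n * (μ * x3 + ν)) ≠ 0 :=
      mul_ne_zero (mul_ne_zero (mul_ne_zero two_ne_zero hn) e2)
        (mul_ne_zero (mul_ne_zero two_ne_zero hn) e3)
    refine mul_left_cancel₀ h4 ?_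
    rw [mul_zero]
    linear_combination (2 * n * (μ * x3 + ν) * ((x3 - x1) + (2 * n * μ * d1 + n * d1 ^ 2)) +
      n * d1 * (2 * n * (μ * x3 + ν) * d3)) * p2 +
      (2 * n * (μ * x2 + ν) * ((x2 - x1) + (2 * n * μ * d1 + n * d1 ^ 2)) +
      n * d1 * ((x2 - x1) * (x2 - x3))) * p3 + (x2 - x3) ^ 2 * (2 * n * μ + n * d1) * p1
  rw [hX]
  linear_combination key

end TZ
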