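import Pool.Agent.H.MP_89f84f_ag.T0.Main

/-!
# Coordinates with respect to a root of `T³ + a T + e`
-/

open Polynomial

noncomputable section

namespace TZ

open WRes

section ring

variable {R : Type*} [CommRing R]

/-- Multiplication in `R[ξ]/(ξ³ + a ξ + e)` in the basis `1, ξ, ξ²`. -/
def mul3 (a e : R) (u v : Fin 3 → R) : Fin 3 → R :=
  ![u 0 * v 0 - e * (u 1 * v 2 + u 2 * v 1),
    u 0 * v 1 + u 1 * v 0 - a * (u 1 * v 2 + u 2 * v 1) - e * (u 2 * v 2),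
    u 0 * v 2 + u 1 * v 1 + u 2 * v 0 - a * (u 2 * v 2)]

/-- The value `u₀ + u₁ ξ + u₂ ξ²`. -/
def vl (ξ : R) (u : Fin 3 → R) : R := u 0 + u 1 * ξ + u 2 * ξ ^ 2

theorem vl_mul3 {a e ξ : R} (hξ : ξ ^ 3 + a * ξ + e = 0) (u v : Fin 3 → R) :
    vl ξ (mul3 a e u v) = vl ξ u * vl ξ v := by
  unfold vl mul3
  simp only [Matrix.cons_val_zero, Matrix.cons_val_one, Matrix.cons_val]
  linear_combination (-(u 1 * v 2 + u 2 * v 1) - u 2 * v 2 * ξ) * hξ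

/-- The difference of `(m x + c)²` and `x³ + a x + b`, for `x = P 0 + P 1 ξ + P 2 ξ²`, `m = P 3`
and `c = P 4`. -/
def eq3 (a b e : R) (P : Fin 6 → R) : Fin 3 → R :=
  mul3 a e ![P 3 * P 0 + P 4, P 3 * P 1, P 3 * P 2] ![P 3 * P 0 + P 4, P 3 * P 1, P 3 * P 2] -
    (mul3 a e ![P 0, P 1, P 2] (mul3 a e ![P 0, P 1, P 2] ![P 0, P 1, P 2]) +
      ![a * P 0 + b, a * P 1, a * P 2])

/-- The product of the differences of the conjugates of `P 0 + P 1 ξ + P 2 ξ²`, divided by that of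
`ξ`. -/
def idx (a e : R) (P : Fin 6 → R) : R := P 1 ^ 3 + a * P 1 * P 2 ^ 2 + e * P 2 ^ 3

/-- The equations. -/
def Eqs6 (a b e : R) (P : Fin 6 → R) : Prop :=
  (∀ i, eq3 a b e P i = 0) ∧ P 5 * idx a e P = 1

end ring

variable {F : Type*} [Field F]

theorem vl_eq3 {a b e ξ : F} (hξ : ξ ^ 3 + a * ξ + e = 0) (P : Fin 6 → F) :
    vl ξ (eq3 a b e P) = (P 3 * vl ξ ![P 0, P 1, P 2] + P 4) ^ 2 - ff a b (vl ξ ![P 0, P 1, P 2]) := by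
  have hs : ∀ u v : Fin 3 → F, vl ξ (u - v) = vl ξ u - vl ξ v := fun u v => by
    simp only [vl, Pi.sub_apply]
    ring
  have ha : ∀ u v : Fin 3 → F, vl ξ (u + v) = vl ξ u + vl ξ v := fun u v => by
    simp only [vl, Pi.add_apply]
    ring
  unfold eq3
  rw [hs, ha, vl_mul3 hξ, vl_mul3 hξ, vl_mul3 hξ]
  have h1 : vl ξ ![P 3 * P 0 + P 4, P 3 * P 1, P 3 * P 2] = P 3 * vl ξ ![P 0, P 1, P 2] + P 4 := by
    simp only [vl, Matrix.cons_val_zero, Matrix.cons_val_one, Matrix.cons_val]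
    ring
  have h2 : vl ξ ![a * P 0 + b, a * P 1, a * P 2] = a * vl ξ ![P 0, P 1, P 2] + b := by
    simp only [vl, Matrix.cons_val_zero, Matrix.cons_val_one, Matrix.cons_val]
    ring
  rw [h1, h2]
  unfold ff
  ring

theorem vl_inj {ξ : Fin 3 → F} (h01 : ξ 0 ≠ ξ 1) (h02 : ξ 0 ≠ ξ 2) (h12 : ξ 1 ≠ ξ 2)
    {u : Fin 3 → F} (h : ∀ i, vl (ξ i) u = 0) : ∀ i, u i = 0 := by
  have h0 := h 0
  have h1 := h 1
  have h2 := h 2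
  unfold vl at h0 h1 h2
  have e1 : u 1 + u 2 * (ξ 0 + ξ 1) = 0 := by
    refine mul_left_cancel₀ (sub_ne_zero.2 h01) ?_
    linear_combination h0 - h1
  have e2 : u 1 + u 2 * (ξ 0 + ξ 2) = 0 := by
    refine mul_left_cancel₀ (sub_ne_zero.2 h02) ?_
    linear_combination h0 - h2
  have e3 : u 2 = 0 := by
    refine mul_left_cancel₀ (sub_ne_zero.2 h12) ?_
    linear_combination e1 - e2
  have e4 : u 1 = 0 := by linear_combination e1 - (ξ 0 + ξ 1) * e3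
  have e5 : u 0 = 0 := by linear_combination h0 - ξ 0 * e4 - ξ 0 ^ 2 * e3
  intro i
  fin_cases i
  · exact e5
  · exact e4
  · exact e3

/-- The roots. -/
structure Roots (A E : F) (ξ : Fin 3 → F) : Prop where
  rt : ∀ i, ξ i ^ 3 + A * ξ i + E = 0
  h01 : ξ 0 ≠ ξ 1
  h02 : ξ 0 ≠ ξ 2
  h12 : ξ 1 ≠ ξ 2

namespace Roots

variable {A B E : F} {ξ : Fin 3 → F} (h : Roots A E ξ)
include h

theorem sum : ξ 2 = -ξ 0 - ξ 1 := by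
  have e1 : ξ 0 ^ 2 + ξ 0 * ξ 1 + ξ 1 ^ 2 + A = 0 := by
    refine mul_left_cancel₀ (sub_ne_zero.2 h.h01) ?_
    linear_combination h.rt 0 - h.rt 1
  have e2 : ξ 0 ^ 2 + ξ 0 * ξ 2 + ξ 2 ^ 2 + A = 0 := by
    refine mul_left_cancel₀ (sub_ne_zero.2 h.h02) ?_
    linear_combination h.rt 0 - h.rt 2
  refine mul_left_cancel₀ (sub_ne_zero.2 h.h12) ?_
  linear_combination e1 - e2

theorem eqA : A = -(ξ 0 ^ 2 + ξ 0 * ξ 1 + ξ 1 ^ 2) := by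
  have e1 : ξ 0 ^ 2 + ξ 0 * ξ 1 + ξ 1 ^ 2 + A = 0 := by
    refine mul_left_cancel₀ (sub_ne_zero.2 h.h01) ?_
    linear_combination h.rt 0 - h.rt 1
  linear_combination e1

theorem eqE : E = ξ 0 * ξ 1 * (ξ 0 + ξ 1) := by
  have h1 := h.rt 0
  rw [h.eqA] at h1
  linear_combination h1

theorem disc : 4 * A ^ 3 + 27 * E ^ 2 = -((ξ 0 - ξ 1) * (ξ 0 - ξ 2) * (ξ 1 - ξ 2)) ^ 2 := by
  rw [h.eqE, h.sum, h.eqA]
  ring

theorem disc_ne : 4 * A ^ 3 + 27 * E ^ 2 ≠ 0 := by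
  rw [h.disc]
  exact neg_ne_zero.2 (pow_ne_zero _ (mul_ne_zero (mul_ne_zero (sub_ne_zero.2 h.h01)
    (sub_ne_zero.2 h.h02)) (sub_ne_zero.2 h.h12)))

theorem idx_eq (P : Fin 6 → F) :
    (vl (ξ 0) ![P 0, P 1, P 2] - vl (ξ 1) ![P 0, P 1, P 2]) *
      (vl (ξ 0) ![P 0, P 1, P 2] - vl (ξ 2) ![P 0, P 1, P 2]) *
        (vl (ξ 1) ![P 0, P 1, P 2] - vl (ξ 2) ![P 0, P 1, P 2]) =
      (ξ 0 - ξ 1) * (ξ 0 - ξ 2) * (ξ 1 - ξ 2) * idx A E P := by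
  unfold idx vl
  simp only [Matrix.cons_val_zero, Matrix.cons_val_one, Matrix.cons_val]
  rw [h.eqE, h.sum, h.eqA]
  ring

theorem eqs_iff (P : Fin 6 → F) : Eqs6 A B E P ↔
    (∀ i, (P 3 * vl (ξ i) ![P 0, P 1, P 2] + P 4) ^ 2 = ff A B (vl (ξ i) ![P 0, P 1, P 2])) ∧
      P 5 * idx A E P = 1 := by
  unfold Eqs6
  refine and_congr_left fun _ => ⟨fun h1 i => ?_, fun h1 => ?_⟩
  · rw [← sub_eq_zero, ← vl_eq3 (h.rt i)]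
    unfold vl
    rw [h1, h1, h1]
    ring
  · refine vl_inj h.h01 h.h02 h.h12 fun i => ?_
    rw [vl_eq3 (h.rt i), sub_eq_zero]
    exact h1 i

end Roots

/-- The product of the differences. -/
def kap (ξ : Fin 3 → F) : F := (ξ 0 - ξ 1) * (ξ 0 - ξ 2) * (ξ 1 - ξ 2)

/-- The inverse Vandermonde matrix. -/
def Lm (ξ : Fin 3 → F) : Fin 3 → Fin 3 → F :=
  ![![ξ 1 * ξ 2 * (ξ 1 - ξ 2) / kap ξ, -(ξ 0 * ξ 2 * (ξ 0 - ξ 2)) / kap ξ,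
      ξ 0 * ξ 1 * (ξ 0 - ξ 1) / kap ξ],
    ![-((ξ 1 + ξ 2) * (ξ 1 - ξ 2)) / kap ξ, (ξ 0 + ξ 2) * (ξ 0 - ξ 2) / kap ξ,
      -((ξ 0 + ξ 1) * (ξ 0 - ξ 1)) / kap ξ],
    ![(ξ 1 - ξ 2) / kap ξ, -(ξ 0 - ξ 2) / kap ξ, (ξ 0 - ξ 1) / kap ξ]]

theorem pt6_eq {A B E : F} {ξ : Fin 3 → F} (h : Roots A E ξ) {P : Fin 6 → F}
    (hP : Eqs6 A B E P) :
    vl (ξ 0) ![P 0, P 1, P 2] ≠ vl (ξ 1) ![P 0, P 1, P 2] ∧
    vl (ξ 0) ![P 0, P 1, P 2] ≠ vl (ξ 2) ![P 0, P 1, P 2] ∧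
    vl (ξ 1) ![P 0, P 1, P 2] ≠ vl (ξ 2) ![P 0, P 1, P 2] ∧
    x3 (vl (ξ 0) ![P 0, P 1, P 2]) (P 3 * vl (ξ 0) ![P 0, P 1, P 2] + P 4)
      (vl (ξ 1) ![P 0, P 1, P 2]) (P 3 * vl (ξ 1) ![P 0, P 1, P 2] + P 4) =
        vl (ξ 2) ![P 0, P 1, P 2] ∧
    pt6 (Lm ξ) (kap ξ) (vl (ξ 0) ![P 0, P 1, P 2]) (P 3 * vl (ξ 0) ![P 0, P 1, P 2] + P 4)
      (vl (ξ 1) ![P 0, P 1, P 2]) (P 3 * vl (ξ 1) ![P 0, P 1, P 2] + P 4) = P := by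
  obtain ⟨h1, h2⟩ := (h.eqs_iff P).1 hP
  have hk : kap ξ ≠ 0 := mul_ne_zero (mul_ne_zero (sub_ne_zero.2 h.h01)
    (sub_ne_zero.2 h.h02)) (sub_ne_zero.2 h.h12)
  have hid : idx A E P ≠ 0 := by
    intro h0
    rw [h0, mul_zero] at h2
    exact zero_ne_one h2
  have hprod := h.idx_eq P
  have hprod' : (vl (ξ 0) ![P 0, P 1, P 2] - vl (ξ 1) ![P 0, P 1, P 2]) *
      (vl (ξ 0) ![P 0, P 1, P 2] - vl (ξ 2) ![P 0, P 1, P 2]) *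
        (vl (ξ 1) ![P 0, P 1, P 2] - vl (ξ 2) ![P 0, P 1, P 2]) ≠ 0 := by
    rw [hprod]
    exact mul_ne_zero hk hid
  have v0 : vl (ξ 0) ![P 0, P 1, P 2] = P 0 + P 1 * ξ 0 + P 2 * ξ 0 ^ 2 := rfl
  have v1 : vl (ξ 1) ![P 0, P 1, P 2] = P 0 + P 1 * ξ 1 + P 2 * ξ 1 ^ 2 := rfl
  have v2 : vl (ξ 2) ![P 0, P 1, P 2] = P 0 + P 1 * ξ 2 + P 2 * ξ 2 ^ 2 := rfl
  have h10 := h1 0
  have h11 := h1 1
  have h12 := h1 2
  set x := vl (ξ 0) ![P 0, P 1, P 2] with hx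
  set y := vl (ξ 1) ![P 0, P 1, P 2] with hy
  set z := vl (ξ 2) ![P 0, P 1, P 2] with hz
  have n1 : x ≠ y := fun h0 => hprod' (by rw [h0]; ring)
  have n2 : x ≠ z := fun h0 => hprod' (by rw [h0]; ring)
  have n3 : y ≠ z := fun h0 => hprod' (by rw [h0]; ring)
  have hx3 : x3 x (P 3 * x + P 4) y (P 3 * y + P 4) = z := by
    have h3 := x3_line (n := 1) (μ := P 3) (ν := P 4) (θ := 1) n1 n2 n3 (by rw [one_mul]; exact h10)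
      (by rw [one_mul]; exact h11) (by rw [one_mul]; exact h12) (one_pow 2)
    rw [one_mul, one_mul] at h3
    exact h3
  have hsl : sl x (P 3 * x + P 4) y (P 3 * y + P 4) = P 3 := by
    have h3 := sl_line (μ := P 3) (ν := P 4) (θ := 1) n1
    rw [one_mul, one_mul, one_mul] at h3
    exact h3
  have hic : ic x (P 3 * x + P 4) y (P 3 * y + P 4) = P 4 := by
    have h3 := ic_line (μ := P 3) (ν := P 4) (θ := 1) n1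
    rw [one_mul, one_mul, one_mul] at h3
    exact h3
  refine ⟨n1, n2, n3, hx3, ?_⟩
  unfold pt6
  rw [hx3, hsl, hic]
  have c0 : Lm ξ 0 0 * x + Lm ξ 0 1 * y + Lm ξ 0 2 * z = P 0 := by
    show ξ 1 * ξ 2 * (ξ 1 - ξ 2) / kap ξ * x + -(ξ 0 * ξ 2 * (ξ 0 - ξ 2)) / kap ξ * y +
      ξ 0 * ξ 1 * (ξ 0 - ξ 1) / kap ξ * z = P 0
    rw [v0, v1, v2]
    field_simp
    unfold kap
    ring
  have c1 : Lm ξ 1 0 * x + Lm ξ 1 1 * y + Lm ξ 1 2 * z = P 1 := by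
    show -((ξ 1 + ξ 2) * (ξ 1 - ξ 2)) / kap ξ * x + (ξ 0 + ξ 2) * (ξ 0 - ξ 2) / kap ξ * y +
      -((ξ 0 + ξ 1) * (ξ 0 - ξ 1)) / kap ξ * z = P 1
    rw [v0, v1, v2]
    field_simp
    unfold kap
    ring
  have c2 : Lm ξ 2 0 * x + Lm ξ 2 1 * y + Lm ξ 2 2 * z = P 2 := by
    show (ξ 1 - ξ 2) / kap ξ * x + -(ξ 0 - ξ 2) / kap ξ * y + (ξ 0 - ξ 1) / kap ξ * z = P 2
    rw [v0, v1, v2]
    field_simp
    unfold kap
    ring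
  have c5 : kap ξ / ((x - y) * (x - z) * (y - z)) = P 5 := by
    have hki : (ξ 0 - ξ 1) * (ξ 0 - ξ 2) * (ξ 1 - ξ 2) * idx A E P ≠ 0 := mul_ne_zero hk hid
    rw [hprod, div_eq_iff hki]
    unfold kap
    linear_combination -((ξ 0 - ξ 1) * (ξ 0 - ξ 2) * (ξ 1 - ξ 2)) * h2
  rw [c0, c1, c2, c5]
  funext i
  fin_cases i <;> rfl

end TZ
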