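import Pool.Agent.H.MP_89f84f_ag.T0.Rat
import Pool.Agent.H.MP_89f84f_ag.Red

/-!
# Functions on the surface of collinear triples
-/

open Polynomial

noncomputable section

namespace TZ

open WRes

variable {F : Type*} [Field F]

/-- `D ^ N * g` is a polynomial function of the two points. -/
def HD (f : F[X]) (D g : F → F → F → F → F) : Prop :=
  ∃ (N : ℕ) (h : F → F → F → F → F), HasDec f f h ∧ ∀ x₁ y₁ x₂ y₂, y₁ ^ 2 = aeval x₁ f →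
    y₂ ^ 2 = aeval x₂ f → D x₁ y₁ x₂ y₂ ≠ 0 → D x₁ y₁ x₂ y₂ ^ N * g x₁ y₁ x₂ y₂ = h x₁ y₁ x₂ y₂

variable {f : F[X]} {D g h : F → F → F → F → F}

theorem HasDec.pow' {f₁ f₂ : F[X]} (H : HasDec f₁ f₂ g) (n : ℕ) :
    HasDec f₁ f₂ (fun x₁ y₁ x₂ y₂ => g x₁ y₁ x₂ y₂ ^ n) := by
  induction n with
  | zero => exact (HasDec.const 1).congr' fun _ _ _ _ => by simp
  | succ n ih => exact (ih.mul H).congr' fun _ _ _ _ => by rw [pow_succ]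

theorem HasDec.sub' {f₁ f₂ : F[X]} (H : HasDec f₁ f₂ g) (H' : HasDec f₁ f₂ h) :
    HasDec f₁ f₂ (fun x₁ y₁ x₂ y₂ => g x₁ y₁ x₂ y₂ - h x₁ y₁ x₂ y₂) :=
  (H.add (H'.mul (HasDec.const (-1)))).congr' fun _ _ _ _ => by ring

theorem HD.const (c : F) : HD f D (fun _ _ _ _ => c) :=
  ⟨0, _, HasDec.const c, fun _ _ _ _ _ _ _ => by simp⟩

theorem HD.add (hD : HasDec f f D) (H : HD f D g) (H' : HD f D h) :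
    HD f D (fun x₁ y₁ x₂ y₂ => g x₁ y₁ x₂ y₂ + h x₁ y₁ x₂ y₂) := by
  obtain ⟨N, u, hu, H⟩ := H
  obtain ⟨N', u', hu', H'⟩ := H'
  refine ⟨N + N', _, ((HasDec.pow' hD N').mul hu).add ((HasDec.pow' hD N).mul hu'),
    fun x₁ y₁ x₂ y₂ h1 h2 h3 => ?_⟩
  rw [← H _ _ _ _ h1 h2 h3, ← H' _ _ _ _ h1 h2 h3, pow_add]
  ring

theorem HD.mul (H : HD f D g) (H' : HD f D h) :
    HD f D (fun x₁ y₁ x₂ y₂ => g x₁ y₁ x₂ y₂ * h x₁ y₁ x₂ y₂) := by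
  obtain ⟨N, u, hu, H⟩ := H
  obtain ⟨N', u', hu', H'⟩ := H'
  refine ⟨N + N', _, hu.mul hu', fun x₁ y₁ x₂ y₂ h1 h2 h3 => ?_⟩
  rw [← H _ _ _ _ h1 h2 h3, ← H' _ _ _ _ h1 h2 h3, pow_add]
  ring

theorem HD.congr' (H : HD f D g) (e : ∀ x₁ y₁ x₂ y₂, h x₁ y₁ x₂ y₂ = g x₁ y₁ x₂ y₂) :
    HD f D h := by
  obtain ⟨N, u, hu, H⟩ := H
  exact ⟨N, u, hu, fun x₁ y₁ x₂ y₂ h1 h2 h3 => by rw [e, H _ _ _ _ h1 h2 h3]⟩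

theorem HD.one (hu : HasDec f f h) (e : ∀ x₁ y₁ x₂ y₂, D x₁ y₁ x₂ y₂ ≠ 0 →
    D x₁ y₁ x₂ y₂ * g x₁ y₁ x₂ y₂ = h x₁ y₁ x₂ y₂) : HD f D g :=
  ⟨1, h, hu, fun x₁ y₁ x₂ y₂ _ _ h3 => by rw [pow_one, e _ _ _ _ h3]⟩

/-- The slope of the line. -/
def sl (x₁ y₁ x₂ y₂ : F) : F := (y₁ - y₂) / (x₁ - x₂)

/-- The intercept of the line. -/
def ic (x₁ y₁ x₂ y₂ : F) : F := (x₁ * y₂ - x₂ * y₁) / (x₁ - x₂)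

/-- The abscissa of the third point. -/
def x3 (x₁ y₁ x₂ y₂ : F) : F := sl x₁ y₁ x₂ y₂ ^ 2 - x₁ - x₂

/-- `(x₁ - x₂) ^ 2 x₃` -/
def n3 (x₁ y₁ x₂ y₂ : F) : F := (y₁ - y₂) ^ 2 - (x₁ + x₂) * (x₁ - x₂) ^ 2

/-- The denominator. -/
def DD (x₁ y₁ x₂ y₂ : F) : F :=
  (x₁ - x₂) ^ 2 * (x₁ * (x₁ - x₂) ^ 2 - n3 x₁ y₁ x₂ y₂) * (x₂ * (x₁ - x₂) ^ 2 - n3 x₁ y₁ x₂ y₂)

/-- The point with coordinates `x` (in `k`-coordinates), slope, intercept and `κ` divided by the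
product of the differences. -/
def pt6 (L : Fin 3 → Fin 3 → F) (κ x₁ y₁ x₂ y₂ : F) : Fin 6 → F :=
  ![L 0 0 * x₁ + L 0 1 * x₂ + L 0 2 * x3 x₁ y₁ x₂ y₂, L 1 0 * x₁ + L 1 1 * x₂ + L 1 2 * x3 x₁ y₁ x₂ y₂,
    L 2 0 * x₁ + L 2 1 * x₂ + L 2 2 * x3 x₁ y₁ x₂ y₂, sl x₁ y₁ x₂ y₂, ic x₁ y₁ x₂ y₂,
    κ / ((x₁ - x₂) * (x₁ - x3 x₁ y₁ x₂ y₂) * (x₂ - x3 x₁ y₁ x₂ y₂))]

theorem dd12 {x₁ y₁ x₂ y₂ : F} (h : DD x₁ y₁ x₂ y₂ ≠ 0) : x₁ - x₂ ≠ 0 := by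
  intro h0
  apply h
  unfold DD
  rw [h0]
  ring

theorem x3_mul {x₁ y₁ x₂ y₂ : F} (h : x₁ - x₂ ≠ 0) :
    (x₁ - x₂) ^ 2 * x3 x₁ y₁ x₂ y₂ = n3 x₁ y₁ x₂ y₂ := by
  unfold x3 n3 sl
  field_simp
  ring

theorem dd_eq {x₁ y₁ x₂ y₂ : F} (h : x₁ - x₂ ≠ 0) : DD x₁ y₁ x₂ y₂ =
    (x₁ - x₂) ^ 6 * ((x₁ - x3 x₁ y₁ x₂ y₂) * (x₂ - x3 x₁ y₁ x₂ y₂)) := by
  unfold DD
  rw [← x3_mul h]
  ring

theorem dd_ne {x₁ y₁ x₂ y₂ : F} (h1 : x₁ ≠ x₂) (h2 : x₁ ≠ x3 x₁ y₁ x₂ y₂)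
    (h3 : x₂ ≠ x3 x₁ y₁ x₂ y₂) : DD x₁ y₁ x₂ y₂ ≠ 0 := by
  rw [dd_eq (sub_ne_zero.2 h1)]
  exact mul_ne_zero (pow_ne_zero _ (sub_ne_zero.2 h1))
    (mul_ne_zero (sub_ne_zero.2 h2) (sub_ne_zero.2 h3))

section dec

variable (f)

theorem dec12 : HasDec f f (fun x₁ _ x₂ _ => x₁ - x₂) := HasDec.sub' HasDec.x1 HasDec.x2

theorem decy : HasDec f f (fun _ y₁ _ y₂ => y₁ - y₂) := HasDec.sub' HasDec.y1 HasDec.y2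

theorem decn3 : HasDec f f (fun x₁ y₁ x₂ y₂ => n3 x₁ y₁ x₂ y₂) :=
  HasDec.sub' (HasDec.pow' (decy f) 2) ((HasDec.x1.add HasDec.x2).mul (HasDec.pow' (dec12 f) 2))

theorem decu1 : HasDec f f (fun x₁ y₁ x₂ y₂ => x₁ * (x₁ - x₂) ^ 2 - n3 x₁ y₁ x₂ y₂) :=
  HasDec.sub' (HasDec.x1.mul (HasDec.pow' (dec12 f) 2)) (decn3 f)

theorem decu2 : HasDec f f (fun x₁ y₁ x₂ y₂ => x₂ * (x₁ - x₂) ^ 2 - n3 x₁ y₁ x₂ y₂) :=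
  HasDec.sub' (HasDec.x2.mul (HasDec.pow' (dec12 f) 2)) (decn3 f)

theorem decDD : HasDec f f (fun x₁ y₁ x₂ y₂ => DD x₁ y₁ x₂ y₂) :=
  ((HasDec.pow' (dec12 f) 2).mul (decu1 f)).mul (decu2 f)

theorem hdx1 : HD f DD (fun x₁ _ _ _ => x₁) :=
  HD.one ((decDD f).mul HasDec.x1) fun _ _ _ _ _ => rfl

theorem hdx2 : HD f DD (fun _ _ x₂ _ => x₂) :=
  HD.one ((decDD f).mul HasDec.x2) fun _ _ _ _ _ => rfl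

theorem hdx3 : HD f DD (fun x₁ y₁ x₂ y₂ => x3 x₁ y₁ x₂ y₂) :=
  HD.one (((decn3 f).mul (decu1 f)).mul (decu2 f)) fun x₁ y₁ x₂ y₂ h => by
    rw [← x3_mul (dd12 h)]
    unfold DD
    rw [← x3_mul (dd12 h)]
    ring

theorem hdsl : HD f DD (fun x₁ y₁ x₂ y₂ => sl x₁ y₁ x₂ y₂) :=
  HD.one ((((dec12 f).mul (decy f)).mul (decu1 f)).mul (decu2 f)) fun x₁ y₁ x₂ y₂ h => by
    have h1 : (x₁ - x₂) * sl x₁ y₁ x₂ y₂ = y₁ - y₂ := mul_div_cancel₀ _ (dd12 h)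
    rw [← h1]
    unfold DD
    ring

theorem hdic : HD f DD (fun x₁ y₁ x₂ y₂ => ic x₁ y₁ x₂ y₂) :=
  HD.one ((((dec12 f).mul (HasDec.sub' (HasDec.x1.mul HasDec.y2) (HasDec.x2.mul HasDec.y1))).mul
    (decu1 f)).mul (decu2 f)) fun x₁ y₁ x₂ y₂ h => by
    have h1 : (x₁ - x₂) * ic x₁ y₁ x₂ y₂ = x₁ * y₂ - x₂ * y₁ := mul_div_cancel₀ _ (dd12 h)
    rw [← h1]
    unfold DD
    ring

theorem hdw (κ : F) : HD f DD (fun x₁ y₁ x₂ y₂ =>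
    κ / ((x₁ - x₂) * (x₁ - x3 x₁ y₁ x₂ y₂) * (x₂ - x3 x₁ y₁ x₂ y₂))) :=
  HD.one ((HasDec.const κ).mul (HasDec.pow' (dec12 f) 5)) fun x₁ y₁ x₂ y₂ h => by
    have h0 := dd12 h
    rw [dd_eq h0] at h ⊢
    have h1 : x₁ - x3 x₁ y₁ x₂ y₂ ≠ 0 := fun h2 => h (by rw [h2]; ring)
    have h3 : x₂ - x3 x₁ y₁ x₂ y₂ ≠ 0 := fun h2 => h (by rw [h2]; ring)
    field_simp

theorem hd_eval (L : Fin 3 → Fin 3 → F) (κ : F) (Φ : MvPolynomial (Fin 6) F) :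
    HD f DD (fun x₁ y₁ x₂ y₂ => MvPolynomial.eval (pt6 L κ x₁ y₁ x₂ y₂) Φ) := by
  induction Φ using MvPolynomial.induction_on with
  | C c => exact (HD.const c).congr' fun _ _ _ _ => by simp
  | add p q hp hq => exact (HD.add (decDD f) hp hq).congr' fun _ _ _ _ => by simp
  | mul_X p i hp =>
    have hi : HD f DD (fun x₁ y₁ x₂ y₂ => pt6 L κ x₁ y₁ x₂ y₂ i) := by
      have hl : ∀ c0 c1 c2 : F, HD f DD (fun x₁ y₁ x₂ y₂ =>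
          c0 * x₁ + c1 * x₂ + c2 * x3 x₁ y₁ x₂ y₂) := fun c0 c1 c2 =>
        HD.add (decDD f) (HD.add (decDD f) ((HD.const c0).mul (hdx1 f))
          ((HD.const c1).mul (hdx2 f))) ((HD.const c2).mul (hdx3 f))
      fin_cases i
      · exact hl _ _ _
      · exact hl _ _ _
      · exact hl _ _ _
      · exact hdsl f
      · exact hdic f
      · exact hdw f κ
    exact (hp.mul hi).congr' fun _ _ _ _ => by simp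

end dec

end TZ
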