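import Pool.Agent.H.MP_89f84f_ag.T0.Alg

/-!
# Twists with collinear conjugates
-/

namespace TZ

open WRes

section map

variable {A B : Type*} [Field A] [Field B] (φ : A →+* B)

theorem map_ff (a b x : A) : φ (ff a b x) = ff (φ a) (φ b) (φ x) := by
  simp [ff]

theorem map_ps (a b x : A) : φ (ps a b x) = ps (φ a) (φ b) (φ x) := by
  simp only [ps, map_add, map_sub, map_mul, map_pow, map_ofNat]

theorem map_dl (a b x : A) : φ (dl a b x) = dl (φ a) (φ b) (φ x) := by
  simp only [dl, map_div₀, map_add, map_sub, map_mul, map_pow, map_ofNat, map_ff]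

theorem map_it (a b x : A) (j : ℕ) : φ ((dl a b)^[j] x) = (dl (φ a) (φ b))^[j] (φ x) := by
  induction j with
  | zero => rfl
  | succ j ih => rw [Function.iterate_succ_apply', Function.iterate_succ_apply', map_dl, ih]

end map

variable {k K F : Type*} [Field k] [Field K] [Field F] [Algebra k K] [Algebra k F] [CharZero k]

/-- Three embeddings which give the trace and the norm. -/
structure Emb3 (φ : Fin 3 → (K →ₐ[k] F)) : Prop where
  tr : ∀ z : K, algebraMap k F (Algebra.trace k K z) = φ 0 z + φ 1 z + φ 2 z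
  nm : ∀ z : K, algebraMap k F (Algebra.norm k z) = φ 0 z * φ 1 z * φ 2 z

/-- The conjugates of `x` are different. -/
def Dist (φ : Fin 3 → (K →ₐ[k] F)) (x : K) : Prop :=
  φ 0 x ≠ φ 1 x ∧ φ 0 x ≠ φ 2 x ∧ φ 1 x ≠ φ 2 x

theorem step {φ : Fin 3 → (K →ₐ[k] F)} (hφ : Emb3 φ) {a b n μ ν : k} {x : K} (hx : Dist φ x)
    (h : algebraMap k K n * (algebraMap k K μ * x + algebraMap k K ν) ^ 2 =
      ff (algebraMap k K a) (algebraMap k K b) x)
    (h0 : ff (algebraMap k K a) (algebraMap k K b) x ≠ 0) :
    ∃ μ' ν' : k, algebraMap k K n *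
      (algebraMap k K μ' * dl (algebraMap k K a) (algebraMap k K b) x + algebraMap k K ν') ^ 2 =
        ff (algebraMap k K a) (algebraMap k K b)
          (dl (algebraMap k K a) (algebraMap k K b) x) := by
  have hK : CharZero K := charZero_of_injective_algebraMap (algebraMap k K).injective
  have hF : CharZero F := charZero_of_injective_algebraMap (algebraMap k F).injective
  set α := algebraMap k K a with hα
  set β := algebraMap k K b with hβ
  set N := algebraMap k K n with hN
  set M := algebraMap k K μ with hM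
  set V := algebraMap k K ν with hV
  have hη : M * x + V ≠ 0 := by
    intro h1
    rw [h1] at h
    exact h0 (by rw [← h]; ring)
  have hn : N ≠ 0 := by
    intro h1
    rw [h1] at h
    exact h0 (by rw [← h]; ring)
  have h2n : 2 * N * (M * x + V) ≠ 0 := mul_ne_zero (mul_ne_zero two_ne_zero hn) hη
  set δ : K := (3 * x ^ 2 + α - 2 * N * M * (M * x + V)) / (2 * N * (M * x + V)) with hδ
  have hδe : 2 * N * (M * x + V) * δ = 3 * x ^ 2 + α - 2 * N * M * (M * x + V) := by
    rw [hδ]
    exact mul_div_cancel₀ _ h2n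
  refine ⟨-(μ + Algebra.trace k K δ), -(ν - Algebra.trace k K (δ * x) + n * Algebra.norm k δ), ?_⟩
  have hc : ∀ (i : Fin 3) (c : k), φ i (algebraMap k K c) = algebraMap k F c :=
    fun i c => (φ i).commutes c
  have hi : ∀ i : Fin 3, algebraMap k F n * (algebraMap k F μ * φ i x + algebraMap k F ν) ^ 2 =
      ff (algebraMap k F a) (algebraMap k F b) (φ i x) := by
    intro i
    have h1 := congrArg (φ i) h
    have h2 : (φ i) (ff α β x) = ff ((φ i) α) ((φ i) β) (φ i x) := map_ff (φ i).toRingHom α β x
    rw [h2, map_mul, map_pow, map_add, map_mul, hN, hM, hV, hα, hβ, hc, hc, hc, hc, hc] at h1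
    exact h1
  have hei : ∀ i : Fin 3, algebraMap k F μ * φ i x + algebraMap k F ν ≠ 0 := by
    intro i h1
    apply hη
    apply (φ i).toRingHom.injective
    show φ i (M * x + V) = φ i 0
    rw [map_zero, map_add, map_mul, hM, hV, hc, hc]
    exact h1
  have hdi : ∀ i : Fin 3, 2 * algebraMap k F n * (algebraMap k F μ * φ i x + algebraMap k F ν) *
      φ i δ = 3 * φ i x ^ 2 + algebraMap k F a - 2 * algebraMap k F n * algebraMap k F μ *
        (algebraMap k F μ * φ i x + algebraMap k F ν) := by
    intro i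
    have h1 := congrArg (φ i) hδe
    simp only [map_mul, map_add, map_sub, map_pow, map_ofNat, hN, hM, hV, hα, hc] at h1
    exact h1
  have hnF : algebraMap k F n ≠ 0 := by
    intro h1
    apply hn
    rw [hN, (map_eq_zero (algebraMap k F)).1 h1, map_zero]
  have key := tang hnF hx.1 hx.2.1 hx.2.2 (hi 0) (hi 1) (hi 2) (hei 0) (hei 1) (hei 2)
    (hdi 0) (hdi 1) (hdi 2)
  -- the identity over `K`
  have hY : ps α β x / (8 * ff α β x ^ 2) * (M * x + V) =
      algebraMap k K (-(μ + Algebra.trace k K δ)) * dl α β x +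
        algebraMap k K (-(ν - Algebra.trace k K (δ * x) + n * Algebra.norm k δ)) := by
    apply (φ 0).toRingHom.injective
    show φ 0 _ = φ 0 _
    have h1 : φ 0 (ps α β x) = ps (algebraMap k F a) (algebraMap k F b) (φ 0 x) := by
      have := map_ps (φ 0).toRingHom α β x
      rw [← hc 0 a, ← hc 0 b]
      exact this
    have h2 : φ 0 (ff α β x) = ff (algebraMap k F a) (algebraMap k F b) (φ 0 x) := by
      have := map_ff (φ 0).toRingHom α β x
      rw [← hc 0 a, ← hc 0 b]
      exact this
    have h3 : φ 0 (dl α β x) = dl (algebraMap k F a) (algebraMap k F b) (φ 0 x) := by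
      have := map_dl (φ 0).toRingHom α β x
      rw [← hc 0 a, ← hc 0 b]
      exact this
    have hL : φ 0 (ps α β x / (8 * ff α β x ^ 2) * (M * x + V)) =
        ps (algebraMap k F a) (algebraMap k F b) (φ 0 x) /
          (8 * ff (algebraMap k F a) (algebraMap k F b) (φ 0 x) ^ 2) *
            (algebraMap k F μ * φ 0 x + algebraMap k F ν) := by
      rw [map_mul, map_div₀, map_mul, map_pow, map_ofNat, map_add, map_mul, h1, h2, hM, hV, hc, hc]
    have hR : φ 0 (algebraMap k K (-(μ + Algebra.trace k K δ)) * dl α β x +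
        algebraMap k K (-(ν - Algebra.trace k K (δ * x) + n * Algebra.norm k δ))) =
        algebraMap k F (-(μ + Algebra.trace k K δ)) *
          dl (algebraMap k F a) (algebraMap k F b) (φ 0 x) +
          algebraMap k F (-(ν - Algebra.trace k K (δ * x) + n * Algebra.norm k δ)) := by
      rw [map_add, map_mul, hc, hc, h3]
    rw [hL, hR, key]
    simp only [map_neg, map_add, map_sub, map_mul, hφ.tr, hφ.nm]
    ring
  rw [← hY, mul_pow, ff_dl h0, ← h]
  ring

theorem twist {φ : Fin 3 → (K →ₐ[k] F)} (hφ : Emb3 φ) {a b n : k} {x : K}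
    (h : algebraMap k K n = ff (algebraMap k K a) (algebraMap k K b) x) (j : ℕ)
    (h1 : ∀ i ≤ j, ff (algebraMap k K a) (algebraMap k K b)
      ((dl (algebraMap k K a) (algebraMap k K b))^[i] x) ≠ 0)
    (h2 : ∀ i < j, Dist φ ((dl (algebraMap k K a) (algebraMap k K b))^[i] x)) :
    ∃ μ ν : k, algebraMap k K n * (algebraMap k K μ *
      (dl (algebraMap k K a) (algebraMap k K b))^[j] x + algebraMap k K ν) ^ 2 =
        ff (algebraMap k K a) (algebraMap k K b)
          ((dl (algebraMap k K a) (algebraMap k K b))^[j] x) := by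
  induction j with
  | zero => exact ⟨0, 1, by simp [h]⟩
  | succ j ih =>
    obtain ⟨μ, ν, h3⟩ := ih (fun i hi => h1 i (hi.trans (Nat.le_succ j)))
      (fun i hi => h2 i (hi.trans (Nat.lt_succ_self j)))
    obtain ⟨μ', ν', h4⟩ := step hφ (h2 j (Nat.lt_succ_self j)) h3 (h1 j (Nat.le_succ j))
    refine ⟨μ', ν', ?_⟩
    rw [Function.iterate_succ_apply']
    exact h4

end TZ
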