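import Pool.Agent.H.MP_89f84f_ag.T0.Zf
import Pool.Agent.H.MP_89f84f_ag.P12Exists

/-!
# Infinitely many parameters with a nonsquare value
-/

open Polynomial WithZero

noncomputable section

namespace TZ

open WRes

variable {k : Type*} [Field k]

/-- The denominator as a polynomial. -/
def qP (a e : k) : k[X] := C a * X ^ 2 + C (3 * e) * X - C (a ^ 2 / 3)

/-- `a r² + a²/3` as a polynomial. -/
def sP (a : k) : k[X] := C a * X ^ 2 + C (a ^ 2 / 3)

/-- `2 a r + 3 e` as a polynomial. -/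
def tP (a e : k) : k[X] := C (2 * a) * X + C (3 * e)

/-- The numerator as a polynomial. -/
def gP (a e : k) : k[X] :=
  C e * sP a ^ 3 - C (2 * a ^ 2 / 3) * sP a ^ 2 * tP a e - C (a * e) * sP a * tP a e ^ 2 -
    C (e ^ 2 + 2 * a ^ 3 / 27) * tP a e ^ 3

theorem qP_eval (a e r : k) : (qP a e).eval r = qq a e r := by
  simp [qP, qq]

theorem gP_eval (a e r : k) : (gP a e).eval r = gf a e r := by
  simp [gP, sP, tP, gf]

theorem qP_natDegree {a e : k} (ha : a ≠ 0) : (qP a e).natDegree = 2 := by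
  unfold qP
  compute_degree!

theorem root_data [CharZero k] {F : Type*} [Field F] [Algebra k F] {a e : k} (ha : a ≠ 0)
    (hd : 4 * a ^ 3 + 27 * e ^ 2 ≠ 0) {t : F} (ht : aeval t (qP a e) = 0) :
    aeval t (derivative (qP a e)) ≠ 0 ∧ aeval t (gP a e) ≠ 0 := by
  have hF : CharZero F := charZero_of_injective_algebraMap (algebraMap k F).injective
  set A := algebraMap k F a with hA
  set E := algebraMap k F e with hE
  have hA0 : A ≠ 0 := (_root_.map_ne_zero _).2 ha
  have hd' : 4 * A ^ 3 + 27 * E ^ 2 ≠ 0 := by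
    have h4 := (_root_.map_ne_zero (algebraMap k F)).2 hd
    simpa only [map_add, map_mul, map_pow, map_ofNat] using h4
  have hq : A * t ^ 2 + 3 * E * t - A ^ 2 / 3 = 0 := by
    unfold qP at ht
    simp only [map_sub, map_add, map_mul, map_pow, aeval_C, aeval_X, map_div₀, map_ofNat] at ht
    exact ht
  have hder : aeval t (derivative (qP a e)) = 2 * A * t + 3 * E := by
    have h5 : derivative (qP a e) = C a * (2 * X) + C (3 * e) := by
      unfold qP
      rw [derivative_sub, derivative_add, derivative_C_mul, derivative_C_mul, derivative_C,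
        derivative_X_sq, derivative_X, map_ofNat, mul_one, sub_zero]
    rw [h5]
    simp only [map_add, map_mul, aeval_C, aeval_X, map_ofNat]
    rw [← hA, ← hE]
    ring
  have ht' : 2 * A * t + 3 * E ≠ 0 := by
    intro h0
    apply hd'
    linear_combination 3 * (2 * A * t + 3 * E) * h0 - 12 * A * hq
  refine ⟨by rw [hder]; exact ht', ?_⟩
  have hg : aeval t (gP a e) = gf A E t := by
    unfold gP sP tP gf
    simp only [map_sub, map_add, map_mul, map_pow, aeval_C, aeval_X, map_div₀, map_ofNat]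
    rw [← hA, ← hE]
  rw [hg]
  intro h0
  have hs : A * t ^ 2 + A ^ 2 / 3 = t * (2 * A * t + 3 * E) := by linear_combination -hq
  have h1 : (2 * A * t + 3 * E) ^ 3 *
      (E * t ^ 3 - 2 * A ^ 2 / 3 * t ^ 2 - A * E * t - (E ^ 2 + 2 * A ^ 3 / 27)) = 0 := by
    unfold gf at h0
    rw [hs] at h0
    linear_combination h0
  have h2 := (mul_eq_zero.1 h1).resolve_left (pow_ne_zero _ ht')
  have h3 : (4 * A ^ 3 + 27 * E ^ 2) * (9 * E * t - 2 * A ^ 2) = 0 := by
    linear_combination 27 * A ^ 2 * h2 - 27 * (A * E * t - 2 * A ^ 3 / 3 - 3 * E ^ 2) * hq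
  have h4 := (mul_eq_zero.1 h3).resolve_left hd'
  apply mul_ne_zero (pow_ne_zero 2 hA0) hd'
  linear_combination 81 * E ^ 2 * hq - (A * (9 * E * t + 2 * A ^ 2) + 27 * E ^ 2) * h4

theorem sq_inf [NumberField k] {a b e : k} (ha : a ≠ 0) (hd : 4 * a ^ 3 + 27 * e ^ 2 ≠ 0) :
    {r : k | qq a e r ≠ 0 ∧ ¬IsSquare (nf a b e r)}.Infinite := by
  have hdeg : (qP a e).degree ≠ 0 := by
    intro h0
    have h1 := natDegree_eq_zero_iff_degree_le_zero.2 h0.le
    rw [qP_natDegree ha] at h1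
    omega
  obtain ⟨t0, ht0⟩ := IsAlgClosed.exists_aeval_eq_zero (AlgebraicClosure k) (qP a e) hdeg
  obtain ⟨h1, h2⟩ := root_data ha hd ht0
  obtain ⟨v, hC, T, hT, hTv⟩ := P12.exists_good (qP a e) (gP a e) t0 ht0 h1 h2 {b}
  refine (Set.infinite_range_of_injective hT).mono ?_
  rintro _ ⟨z, rfl⟩
  obtain ⟨-, hv1, hv2⟩ := hTv z
  rw [qP_eval] at hv1
  rw [gP_eval] at hv2
  have hb : v b ≤ 1 := hC b (by simp)
  have hq0 : qq a e (T z) ≠ 0 := by
    intro h0
    rw [h0, map_zero] at hv1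
    exact exp_ne_zero hv1.symm
  refine ⟨hq0, ?_⟩
  have h3 : v (gf a e (T z) / qq a e (T z) ^ 3) = exp (3 : ℤ) := by
    rw [map_div₀, map_pow, hv1, hv2, ← exp_nsmul, one_div, ← exp_neg]
    norm_num
  have h4 : v (nf a b e (T z)) = exp (3 : ℤ) := by
    unfold nf
    rw [← h3]
    refine v.map_add_eq_of_lt_left ?_
    rw [h3]
    refine hb.trans_lt ?_
    rw [← exp_zero]
    exact exp_lt_exp.2 (by norm_num)
  rintro ⟨y, hy⟩
  rw [hy, map_mul] at h4
  have hy0 : v y ≠ 0 := by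
    intro h0
    rw [h0, zero_mul] at h4
    exact exp_ne_zero h4.symm
  obtain ⟨m, hm⟩ : ∃ m : ℤ, v y = exp m := ⟨log (v y), (exp_log hy0).symm⟩
  rw [hm, ← exp_add, exp_inj] at h4
  omega

end TZ
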