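import Pool.Agent.H.MP_89f84f_ag.T0.Cub
import Pool.Agent.H.MP_89f84f_ag.T0.Sq
import Pool.Agent.H.MP_89f84f_ag.T0.Sch6

/-!
# Density of the quadratic points on the explicit affine surface
-/

open Polynomial

noncomputable section

namespace TZ

open WRes

theorem exists_emb3 {k K F : Type*} [Field k] [CharZero k] [Field K] [Field F] [Algebra k K]
    [Algebra k F] [IsAlgClosed F] [FiniteDimensional k K] (h3 : Module.finrank k K = 3) :
    ∃ φ : Fin 3 → (K →ₐ[k] F), Emb3 φ ∧ Function.Injective φ := by
  classical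
  have hc : Fintype.card (K →ₐ[k] F) = 3 := by rw [AlgHom.card, h3]
  let ε : (K →ₐ[k] F) ≃ Fin 3 := Fintype.equivFinOfCardEq hc
  refine ⟨ε.symm, ⟨fun z => ?_, fun z => ?_⟩, ε.symm.injective⟩
  · rw [trace_eq_sum_embeddings F, ← Equiv.sum_comp ε.symm, Fin.sum_univ_three]
  · rw [Algebra.norm_eq_prod_embeddings k F, ← Equiv.prod_comp ε.symm, Fin.prod_univ_three]

section cubic

variable {k : Type*} [Field k]

/-- The cubic polynomial. -/
def cub (a e : k) : k[X] := X ^ 3 + C a * X + C e

theorem cub_natDegree (a e : k) : (cub a e).natDegree = 3 := by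
  unfold cub
  compute_degree!

theorem cub_monic (a e : k) : (cub a e).Monic := by
  unfold cub
  monicity!

theorem cub_root (a e : k) : AdjoinRoot.root (cub a e) ^ 3 +
    algebraMap k (AdjoinRoot (cub a e)) a * AdjoinRoot.root (cub a e) +
      algebraMap k (AdjoinRoot (cub a e)) e = 0 := by
  have h := AdjoinRoot.eval₂_root (cub a e)
  unfold cub at h ⊢
  rw [eval₂_add, eval₂_add, eval₂_mul, eval₂_pow, eval₂_X, eval₂_C, eval₂_C] at h
  exact h

theorem exists_coords {a e : k} (x : AdjoinRoot (cub a e)) : ∃ u : Fin 3 → k,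
    x = algebraMap k _ (u 0) + algebraMap k _ (u 1) * AdjoinRoot.root (cub a e) +
      algebraMap k _ (u 2) * AdjoinRoot.root (cub a e) ^ 2 := by
  obtain ⟨q, rfl⟩ := AdjoinRoot.mk_surjective x
  have h := modByMonic_add_div q (cub a e)
  have hlt : (q %ₘ cub a e).natDegree < 3 := by
    have h1 := natDegree_modByMonic_lt q (cub_monic a e) (by
      intro h0
      have h2 := cub_natDegree a e
      rw [h0, natDegree_one] at h2
      omega)
    rw [cub_natDegree] at h1
    exact h1
  refine ⟨fun i => (q %ₘ cub a e).coeff i, ?_⟩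
  conv_lhs => rw [← h, map_add, map_mul, AdjoinRoot.mk_self, zero_mul, add_zero,
    as_sum_range' _ 3 hlt]
  simp only [Finset.sum_range_succ, Finset.sum_range_zero, zero_add, map_add,
    ← C_mul_X_pow_eq_monomial, map_mul, map_pow, AdjoinRoot.mk_X, AdjoinRoot.mk_C, pow_zero,
    mul_one, pow_one]
  rfl

end cubic

theorem explicit {k F : Type*} [Field k] [NumberField k] [Field F] [Algebra k F] [IsAlgClosed F]
    {a b e : k} (ha : a ≠ 0) (hirr : Irreducible (cub a e)) (Φ : MvPolynomial (Fin 6) F)
    (hΦ : ∀ Q : Fin 6 → F, Eqs6 (algebraMap k F a) (algebraMap k F b) (algebraMap k F e) Q →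
      Module.finrank k (IntermediateField.adjoin k (Set.range Q)) = 2 →
      MvPolynomial.eval Q Φ = 0)
    (P : Fin 6 → F)
    (hP : Eqs6 (algebraMap k F a) (algebraMap k F b) (algebraMap k F e) P) :
    MvPolynomial.eval P Φ = 0 := by
  have : Fact (Irreducible (cub a e)) := ⟨hirr⟩
  have hne : cub a e ≠ 0 := (cub_monic a e).ne_zero
  have hfin : Module.finrank k (AdjoinRoot (cub a e)) = 3 := by
    rw [(AdjoinRoot.powerBasis hne).finrank, AdjoinRoot.powerBasis_dim, cub_natDegree]
  have hfd : FiniteDimensional k (AdjoinRoot (cub a e)) :=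
    Module.finite_of_finrank_pos (by rw [hfin]; norm_num)
  obtain ⟨φ, hφ, hφi⟩ := exists_emb3 (F := F) hfin
  set ξ := AdjoinRoot.root (cub a e) with hξ
  have hroot := cub_root a e
  rw [← hξ] at hroot
  set A := algebraMap k F a with hA
  set B := algebraMap k F b with hB
  set E := algebraMap k F e with hE
  have hrt : ∀ i, φ i ξ ^ 3 + A * φ i ξ + E = 0 := by
    intro i
    have h := congrArg (φ i) hroot
    rw [map_add, map_add, map_mul, map_pow, (φ i).commutes, (φ i).commutes, map_zero] at h
    exact h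
  have hinj : ∀ i j, i ≠ j → φ i ξ ≠ φ j ξ := by
    intro i j hij h
    exact hij (hφi (AdjoinRoot.algHom_ext h))
  have hR : Roots A E (fun i => φ i ξ) :=
    ⟨hrt, hinj 0 1 (by decide), hinj 0 2 (by decide), hinj 1 2 (by decide)⟩
  have hdF := hR.disc_ne
  have hd : 4 * a ^ 3 + 27 * e ^ 2 ≠ 0 := by
    intro h0
    apply hdF
    have h4 := congrArg (algebraMap k F) h0
    simpa only [map_add, map_mul, map_pow, map_ofNat, map_zero] using h4
  have hinf := sq_inf (b := b) ha hd
  have hv : ∀ (u : Fin 3 → k) (i : Fin 3), φ i (algebraMap k _ (u 0) + algebraMap k _ (u 1) * ξ +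
      algebraMap k _ (u 2) * ξ ^ 2) = vl (φ i ξ) (fun j => algebraMap k F (u j)) := by
    intro u i
    rw [map_add, map_add, map_mul, map_mul, map_pow, (φ i).commutes, (φ i).commutes,
      (φ i).commutes]
    rfl
  have hmain := fun {x₁ y₁ x₂ y₂ : F} => dens (x₁ := x₁) (y₁ := y₁) (x₂ := x₂) (y₂ := y₂) hφ ha hd hroot
    ⟨hR.h01, hR.h02, hR.h12⟩ hinf
    (hd_eval (pf A B) (Lm fun i => φ i ξ) (kap fun i => φ i ξ) Φ) (by
      intro n μ ν x θ hn hx hff hD hθ
      obtain ⟨u, hu⟩ := exists_coords x
      rw [← hξ] at hu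
      have hxi : ∀ i, φ i x = vl (φ i ξ) (fun j => algebraMap k F (u j)) := fun i => by
        rw [← hv, ← hu]
      set w : k := (u 1 ^ 3 + a * u 1 * u 2 ^ 2 + e * u 2 ^ 3)⁻¹ with hw
      set Q : Fin 6 → F := ![algebraMap k F (u 0), algebraMap k F (u 1), algebraMap k F (u 2),
        θ * algebraMap k F μ, θ * algebraMap k F ν, algebraMap k F w] with hQ
      have hQv : ![Q 0, Q 1, Q 2] = fun j => algebraMap k F (u j) := by
        funext j
        fin_cases j <;> rfl
      have hQx : ∀ i, vl (φ i ξ) ![Q 0, Q 1, Q 2] = φ i x := fun i => by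
        rw [hQv, hxi]
      have hid : idx A E Q = algebraMap k F (u 1 ^ 3 + a * u 1 * u 2 ^ 2 + e * u 2 ^ 3) := by
        simp only [map_add, map_mul, map_pow]
        rfl
      have hid0 : u 1 ^ 3 + a * u 1 * u 2 ^ 2 + e * u 2 ^ 3 ≠ 0 := by
        intro h0
        rw [h0, map_zero] at hid
        have h1 := hR.idx_eq Q
        rw [hid, mul_zero] at h1
        simp only [hQx] at h1
        exact mul_ne_zero (mul_ne_zero (sub_ne_zero.2 hD.1) (sub_ne_zero.2 hD.2.1))
          (sub_ne_zero.2 hD.2.2) h1
      have hQE : Eqs6 A B E Q := by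
        rw [hR.eqs_iff]
        refine ⟨fun i => ?_, ?_⟩
        · simp only [hQx]
          have h1 := step_map (φ := φ) hx i
          rw [← hθ] at h1
          rw [← h1]
          show (θ * algebraMap k F μ * φ i x + θ * algebraMap k F ν) ^ 2 = _
          ring
        · rw [hid]
          show algebraMap k F w * _ = 1
          rw [← map_mul, hw, inv_mul_cancel₀ hid0, map_one]
      have hn' : ∀ r : k, r ^ 2 ≠ n := fun r h => hn ⟨r, by rw [← h, sq]⟩
      have hθm : θ ∈ IntermediateField.adjoin k {θ} :=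
        IntermediateField.mem_adjoin_simple_self k θ
      have hθb : θ ∉ (⊥ : IntermediateField k F) := by
        intro h0
        rw [IntermediateField.mem_bot] at h0
        obtain ⟨r, hr⟩ := h0
        apply hn' r
        apply (algebraMap k F).injective
        rw [map_pow, hr, hθ]
      have hbot : ∀ c : k, θ * algebraMap k F c ∈ (⊥ : IntermediateField k F) → c = 0 := by
        intro c hc
        by_contra hc0
        apply hθb
        have hc1 : algebraMap k F c ≠ 0 := (_root_.map_ne_zero _).2 hc0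
        have h1 : θ = θ * algebraMap k F c * (algebraMap k F c)⁻¹ := by
          rw [mul_assoc, mul_inv_cancel₀ hc1, mul_one]
        rw [h1]
        exact mul_mem hc (inv_mem (IntermediateField.algebraMap_mem _ c))
      have hfr : Module.finrank k (IntermediateField.adjoin k (Set.range Q)) = 2 := by
        refine finrank_two6 hn' hθ (fun i => ?_) ?_
        · fin_cases i
          · exact IntermediateField.algebraMap_mem _ (u 0)
          · exact IntermediateField.algebraMap_mem _ (u 1)
          · exact IntermediateField.algebraMap_mem _ (u 2)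
          · exact mul_mem hθm (IntermediateField.algebraMap_mem _ μ)
          · exact mul_mem hθm (IntermediateField.algebraMap_mem _ ν)
          · exact IntermediateField.algebraMap_mem _ w
        · by_contra hcon
          push Not at hcon
          have hμ : μ = 0 := hbot μ (hcon 3)
          have hν : ν = 0 := hbot ν (hcon 4)
          apply hff
          rw [← hx, hμ, hν, map_zero]
          ring
      have hval := hΦ Q hQE hfr
      have hpt := (pt6_eq hR hQE).2.2.2.2
      simp only [hQx] at hpt
      have hl : ∀ i : Fin 3, θ * (algebraMap k F μ * φ i x + algebraMap k F ν) =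
          Q 3 * φ i x + Q 4 := by
        intro i
        show _ = θ * algebraMap k F μ * φ i x + θ * algebraMap k F ν
        ring
      rw [hl, hl]
      rw [hpt]
      exact hval)
  obtain ⟨n1, n2, n3, hx3, hpt⟩ := pt6_eq hR hP
  obtain ⟨hP1, -⟩ := (hR.eqs_iff P).1 hP
  have h5 := hmain (x₁ := vl (φ 0 ξ) ![P 0, P 1, P 2])
    (y₁ := P 3 * vl (φ 0 ξ) ![P 0, P 1, P 2] + P 4)
    (x₂ := vl (φ 1 ξ) ![P 0, P 1, P 2]) (y₂ := P 3 * vl (φ 1 ξ) ![P 0, P 1, P 2] + P 4)
    (by rw [aeval_pf]; exact hP1 0) (by rw [aeval_pf]; exact hP1 1)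
    (dd_ne n1 (by rw [hx3]; exact n2) (by rw [hx3]; exact n3))
  rw [hpt] at h5
  exact h5

end TZ
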