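import Pool.Agent.H.MP_89f84f_ag.T0.Dec

/-!
# The density argument
-/

open Polynomial

noncomputable section

namespace TZ

open WRes

section maps

variable {A B : Type*} [Field A] [Field B] (φ : A →+* B)

theorem map_zf (a e ξ r : A) : φ (zf a e ξ r) = zf (φ a) (φ e) (φ ξ) (φ r) := by
  simp only [zf, zn, qq, map_neg, map_add, map_sub, map_mul, map_pow, map_div₀, map_ofNat]

theorem map_qq (a e r : A) : φ (qq a e r) = qq (φ a) (φ e) (φ r) := by
  simp only [qq, map_add, map_sub, map_mul, map_pow, map_div₀, map_ofNat]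

theorem map_nf (a b e r : A) : φ (nf a b e r) = nf (φ a) (φ b) (φ e) (φ r) := by
  simp only [nf, gf, qq, map_add, map_sub, map_mul, map_pow, map_div₀, map_ofNat]

end maps

section line

variable {F : Type*} [Field F] {a b n μ ν x1 x2 z θ : F}

theorem sl_line (h12 : x1 ≠ x2) :
    sl x1 (θ * (μ * x1 + ν)) x2 (θ * (μ * x2 + ν)) = θ * μ := by
  unfold sl
  rw [div_eq_iff (sub_ne_zero.2 h12)]
  ring

theorem ic_line (h12 : x1 ≠ x2) :
    ic x1 (θ * (μ * x1 + ν)) x2 (θ * (μ * x2 + ν)) = θ * ν := by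
  unfold ic
  rw [div_eq_iff (sub_ne_zero.2 h12)]
  ring

theorem x3_line (h12 : x1 ≠ x2) (h13 : x1 ≠ z) (h23 : x2 ≠ z)
    (h1 : n * (μ * x1 + ν) ^ 2 = ff a b x1) (h2 : n * (μ * x2 + ν) ^ 2 = ff a b x2)
    (h3 : n * (μ * z + ν) ^ 2 = ff a b z) (hθ : θ ^ 2 = n) :
    x3 x1 (θ * (μ * x1 + ν)) x2 (θ * (μ * x2 + ν)) = z := by
  unfold x3
  rw [sl_line h12]
  have h4 := (vieta h12 h13 h23 h1 h2 h3).1
  linear_combination μ ^ 2 * hθ - h4

end line

variable {k K F : Type*} [Field k] [Field K] [Field F] [Algebra k K] [Algebra k F] [CharZero k]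

omit [CharZero k] in
theorem step_map {φ : Fin 3 → (K →ₐ[k] F)} {a b n μ ν : k} {x : K}
    (h : algebraMap k K n * (algebraMap k K μ * x + algebraMap k K ν) ^ 2 =
      ff (algebraMap k K a) (algebraMap k K b) x) (i : Fin 3) :
    algebraMap k F n * (algebraMap k F μ * φ i x + algebraMap k F ν) ^ 2 =
      ff (algebraMap k F a) (algebraMap k F b) (φ i x) := by
  have h1 := congrArg (φ i) h
  have h2 : (φ i) (ff (algebraMap k K a) (algebraMap k K b) x) =
      ff ((φ i) (algebraMap k K a)) ((φ i) (algebraMap k K b)) (φ i x) :=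
    map_ff (φ i).toRingHom _ _ x
  rw [h2, map_mul, map_pow, map_add, map_mul] at h1
  simpa only [AlgHom.commutes] using h1

theorem dens [IsAlgClosed F] {φ : Fin 3 → (K →ₐ[k] F)} (hφ : Emb3 φ) {a b e : k} (ha : a ≠ 0)
    (hd : 4 * a ^ 3 + 27 * e ^ 2 ≠ 0) {ξ : K}
    (hξ : ξ ^ 3 + algebraMap k K a * ξ + algebraMap k K e = 0) (hξd : Dist φ ξ)
    (hinf : {r : k | qq a e r ≠ 0 ∧ ¬IsSquare (nf a b e r)}.Infinite)
    {g : F → F → F → F → F} (hg : HD (pf (algebraMap k F a) (algebraMap k F b)) DD g)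
    (hA : ∀ (n μ ν : k) (x : K) (θ : F), ¬IsSquare n →
      algebraMap k K n * (algebraMap k K μ * x + algebraMap k K ν) ^ 2 =
        ff (algebraMap k K a) (algebraMap k K b) x →
      ff (algebraMap k K a) (algebraMap k K b) x ≠ 0 →
      Dist φ x → θ ^ 2 = algebraMap k F n →
      g (φ 0 x) (θ * (algebraMap k F μ * φ 0 x + algebraMap k F ν))
        (φ 1 x) (θ * (algebraMap k F μ * φ 1 x + algebraMap k F ν)) = 0)
    {x₁ y₁ x₂ y₂ : F} (h1 : y₁ ^ 2 = aeval x₁ (pf (algebraMap k F a) (algebraMap k F b)))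
    (h2 : y₂ ^ 2 = aeval x₂ (pf (algebraMap k F a) (algebraMap k F b)))
    (h3 : DD x₁ y₁ x₂ y₂ ≠ 0) : g x₁ y₁ x₂ y₂ = 0 := by
  have hF : CharZero F := charZero_of_injective_algebraMap (algebraMap k F).injective
  have hK : CharZero K := charZero_of_injective_algebraMap (algebraMap k K).injective
  obtain ⟨N, u, ⟨α, β, γ, δ, H⟩, hN⟩ := hg
  set A := algebraMap k F a with hA'
  set B := algebraMap k F b with hB'
  set E := algebraMap k F e with hE'
  have hA0 : A ≠ 0 := (_root_.map_ne_zero _).2 ha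
  have hd' : 4 * A ^ 3 + 27 * E ^ 2 ≠ 0 := by
    have h4 := (_root_.map_ne_zero (algebraMap k F)).2 hd
    simpa only [map_add, map_mul, map_pow, map_ofNat] using h4
  have hξi : ∀ i, φ i ξ ^ 3 + A * φ i ξ + E = 0 := by
    intro i
    have h := congrArg (φ i) hξ
    rw [map_add, map_add, map_mul, map_pow, (φ i).commutes, (φ i).commutes, map_zero] at h
    exact h
  have hξij : ∀ i j, φ i ξ ≠ φ j ξ → φ i ξ ^ 2 + φ i ξ * φ j ξ + φ j ξ ^ 2 + A = 0 := by
    intro i j hij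
    refine mul_left_cancel₀ (sub_ne_zero.2 hij) ?_
    linear_combination hξi i - hξi j
  set a' := algebraMap k K a with ha'
  set b' := algebraMap k K b with hb'
  set e' := algebraMap k K e with he'
  set z : k → K := fun r => zf a' e' ξ (algebraMap k K r) with hz
  have hzi : ∀ (i : Fin 3) (j : ℕ) (r : k), φ i ((dl a' b')^[j] (z r)) =
      (dl A B)^[j] (zf A E (φ i ξ) (algebraMap k F r)) := by
    intro i j r
    have q1 := map_it (φ i).toRingHom a' b' (z r) j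
    have q2 := map_zf (φ i).toRingHom a' e' ξ (algebraMap k K r)
    have c1 : (φ i).toRingHom a' = A := (φ i).commutes a
    have c2 : (φ i).toRingHom b' = B := (φ i).commutes b
    have c3 : (φ i).toRingHom e' = E := (φ i).commutes e
    have c4 : (φ i).toRingHom (algebraMap k K r) = algebraMap k F r := (φ i).commutes r
    rw [c1, c3, c4] at q2
    rw [c1, c2] at q1
    have q3 : (φ i).toRingHom (z r) = zf A E (φ i ξ) (algebraMap k F r) := q2
    rw [q3] at q1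
    exact q1
  have hffi : ∀ (i : Fin 3) (x : K), φ i (ff a' b' x) = ff A B (φ i x) := by
    intro i x
    have q1 := map_ff (φ i).toRingHom a' b' x
    have c1 : (φ i).toRingHom a' = A := (φ i).commutes a
    have c2 : (φ i).toRingHom b' = B := (φ i).commutes b
    rw [c1, c2] at q1
    exact q1
  have hinj : Function.Injective (algebraMap k F) := (algebraMap k F).injective
  have hS1 : ∀ j : ℕ, {r : k | ff a' b' ((dl a' b')^[j] (z r)) = 0}.Finite := by
    intro j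
    refine ((zr_ff_finite (b := B) (ξ := φ 0 ξ) hA0 hd' j).preimage hinj.injOn).subset
      fun r hr => ?_
    have hr' : ff a' b' ((dl a' b')^[j] (z r)) = 0 := hr
    show ff A B ((dl A B)^[j] (zf A E (φ 0 ξ) (algebraMap k F r))) = 0
    rw [← hzi, ← hffi, hr', map_zero]
  have hne : ∀ (i i' : Fin 3) (j : ℕ), φ i ξ ≠ φ i' ξ →
      {r : k | φ i ((dl a' b')^[j] (z r)) = φ i' ((dl a' b')^[j] (z r))}.Finite := by
    intro i i' j hii
    refine ((zr_ne_finite (b := B) (ξ := φ i ξ) (ξ' := φ i' ξ) hA0 hd' (hξi i)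
      (hξij i i' hii) j).preimage hinj.injOn).subset fun r hr => ?_
    have hr' : φ i ((dl a' b')^[j] (z r)) = φ i' ((dl a' b')^[j] (z r)) := hr
    rw [hzi, hzi] at hr'
    exact hr'
  have hS2 : ∀ j : ℕ, {r : k | ¬Dist φ ((dl a' b')^[j] (z r))}.Finite := by
    intro j
    refine (((hne 0 1 j hξd.1).union (hne 0 2 j hξd.2.1)).union (hne 1 2 j hξd.2.2)).subset
      fun r hr => ?_
    by_contra hcon
    apply hr
    simp only [Set.mem_union, Set.mem_ofPred_eq, not_or] at hcon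
    exact ⟨hcon.1.1, hcon.1.2, hcon.2⟩
  have key : ∀ j, {r : k | ∃ Y₁ Y₂ : F,
      Y₁ ^ 2 = aeval (φ 0 ((dl a' b')^[j] (z r))) (pf A B) ∧
      Y₂ ^ 2 = aeval (φ 1 ((dl a' b')^[j] (z r))) (pf A B) ∧
      ev (φ 0 ((dl a' b')^[j] (z r))) (φ 1 ((dl a' b')^[j] (z r))) α +
        ev (φ 0 ((dl a' b')^[j] (z r))) (φ 1 ((dl a' b')^[j] (z r))) δ * (Y₁ * Y₂) = 0 ∧
      ev (φ 0 ((dl a' b')^[j] (z r))) (φ 1 ((dl a' b')^[j] (z r))) β * Y₁ +
        ev (φ 0 ((dl a' b')^[j] (z r))) (φ 1 ((dl a' b')^[j] (z r))) γ * Y₂ = 0}.Infinite := by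
    intro j
    have hfin : ((⋃ i ∈ Set.Iic j, {r : k | ff a' b' ((dl a' b')^[i] (z r)) = 0}) ∪
        (⋃ i ∈ Set.Iic j, {r : k | ¬Dist φ ((dl a' b')^[i] (z r))})).Finite :=
      ((Set.finite_Iic j).biUnion fun i _ => hS1 i).union
        ((Set.finite_Iic j).biUnion fun i _ => hS2 i)
    refine (hinf.sdiff hfin).mono ?_
    rintro r ⟨⟨hr1, hr2⟩, hr3⟩
    simp only [Set.mem_union, Set.mem_iUnion, Set.mem_Iic, Set.mem_ofPred_eq, not_or, not_exists,
      not_not] at hr3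
    obtain ⟨hr3, hr4⟩ := hr3
    have hnf : algebraMap k K (nf a b e r) = ff a' b' (z r) := by
      rw [map_nf]
      refine (ff_zf hξ ?_).symm
      rw [← map_qq]
      exact (_root_.map_ne_zero _).2 hr1
    obtain ⟨μ, ν, hμν⟩ := twist hφ hnf j hr3 fun i hi => hr4 i hi.le
    have hDj := hr4 j le_rfl
    obtain ⟨θ, hθ⟩ := IsAlgClosed.exists_pow_nat_eq (algebraMap k F (nf a b e r))
      (Nat.zero_lt_two)
    set x := (dl a' b')^[j] (z r) with hx
    set n := nf a b e r with hn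
    have hli := step_map (φ := φ) hμν
    have hDD : ∀ θ : F, θ ^ 2 = algebraMap k F n →
        DD (φ 0 x) (θ * (algebraMap k F μ * φ 0 x + algebraMap k F ν))
          (φ 1 x) (θ * (algebraMap k F μ * φ 1 x + algebraMap k F ν)) ≠ 0 := by
      intro θ hθ
      have h4 := x3_line hDj.1 hDj.2.1 hDj.2.2 (hli 0) (hli 1) (hli 2) hθ
      refine dd_ne hDj.1 ?_ ?_
      · rw [h4]
        exact hDj.2.1
      · rw [h4]
        exact hDj.2.2
    have hyy : ∀ θ : F, θ ^ 2 = algebraMap k F n → ∀ i,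
        (θ * (algebraMap k F μ * φ i x + algebraMap k F ν)) ^ 2 = aeval (φ i x) (pf A B) := by
      intro θ hθ i
      rw [aeval_pf, mul_pow, hθ]
      exact hli i
    have hu : ∀ θ : F, θ ^ 2 = algebraMap k F n →
        u (φ 0 x) (θ * (algebraMap k F μ * φ 0 x + algebraMap k F ν))
          (φ 1 x) (θ * (algebraMap k F μ * φ 1 x + algebraMap k F ν)) = 0 := by
      intro θ hθ
      rw [← hN _ _ _ _ (hyy θ hθ 0) (hyy θ hθ 1) (hDD θ hθ),
        hA n μ ν x θ hr2 hμν (hr3 j le_rfl) hDj hθ, mul_zero]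
    have e1 := hu θ hθ
    have e2 := hu (-θ) (by rw [neg_sq]; exact hθ)
    have q1 := hyy θ hθ 0
    have q2 := hyy θ hθ 1
    refine ⟨_, _, q1, q2, ?_, ?_⟩
    · rw [H _ _ _ _ q1 q2] at e1
      rw [neg_mul, neg_mul, H _ _ _ _ (by rw [neg_sq]; exact q1) (by rw [neg_sq]; exact q2)] at e2
      linear_combination (1 / 2 : F) * e1 + (1 / 2 : F) * e2
    · rw [H _ _ _ _ q1 q2] at e1
      rw [neg_mul, neg_mul, H _ _ _ _ (by rw [neg_sq]; exact q1) (by rw [neg_sq]; exact q2)] at e2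
      linear_combination (1 / 2 : F) * e1 - (1 / 2 : F) * e2
  have hval : ∀ G : F[X][X], (∀ j (r : k), (∃ Y₁ Y₂ : F,
      Y₁ ^ 2 = aeval (φ 0 ((dl a' b')^[j] (z r))) (pf A B) ∧
      Y₂ ^ 2 = aeval (φ 1 ((dl a' b')^[j] (z r))) (pf A B) ∧
      ev (φ 0 ((dl a' b')^[j] (z r))) (φ 1 ((dl a' b')^[j] (z r))) α +
        ev (φ 0 ((dl a' b')^[j] (z r))) (φ 1 ((dl a' b')^[j] (z r))) δ * (Y₁ * Y₂) = 0 ∧
      ev (φ 0 ((dl a' b')^[j] (z r))) (φ 1 ((dl a' b')^[j] (z r))) β * Y₁ +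
        ev (φ 0 ((dl a' b')^[j] (z r))) (φ 1 ((dl a' b')^[j] (z r))) γ * Y₂ = 0) →
      ev (φ 0 ((dl a' b')^[j] (z r))) (φ 1 ((dl a' b')^[j] (z r))) G = 0) → G = 0 := by
    intro G hG
    refine zr_values (b := B) hA0 hd' (hξi 0) (hξij 0 1 hξd.1) G fun j => ?_
    refine ((key j).image hinj.injOn).mono ?_
    rintro _ ⟨r, hr, rfl⟩
    have h5 := hG j r hr
    rw [hzi, hzi] at h5
    exact h5
  have hP1 := hval (α ^ 2 - δ ^ 2 * C (pf A B) * (pf A B).map C) (by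
    rintro j r ⟨Y₁, Y₂, q1, q2, e1, -⟩
    rw [map_sub, map_mul, map_mul, map_pow, map_pow, ev_C, ev_mapC, ← q1, ← q2]
    linear_combination (ev (φ 0 ((dl a' b')^[j] (z r))) (φ 1 ((dl a' b')^[j] (z r))) α -
      ev (φ 0 ((dl a' b')^[j] (z r))) (φ 1 ((dl a' b')^[j] (z r))) δ * (Y₁ * Y₂)) * e1)
  have hP2 := hval (β ^ 2 * C (pf A B) - γ ^ 2 * (pf A B).map C) (by
    rintro j r ⟨Y₁, Y₂, q1, q2, -, e1⟩
    rw [map_sub, map_mul, map_mul, map_pow, map_pow, ev_C, ev_mapC, ← q1, ← q2]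
    linear_combination (ev (φ 0 ((dl a' b')^[j] (z r))) (φ 1 ((dl a' b')^[j] (z r))) β * Y₁ -
      ev (φ 0 ((dl a' b')^[j] (z r))) (φ 1 ((dl a' b')^[j] (z r))) γ * Y₂) * e1)
  obtain ⟨rfl, rfl⟩ := parity_one (pf_ne _ _) hP1
  obtain ⟨rfl, rfl⟩ := parity_two (pf_ne _ _) hP2
  have h4 := hN _ _ _ _ h1 h2 h3
  rw [H _ _ _ _ h1 h2] at h4
  simp only [map_zero, zero_mul, add_zero] at h4
  exact (mul_eq_zero.1 h4).resolve_left (pow_ne_zero _ h3)

end TZ
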