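import Pool.Agent.H.MP_89f84f_ag.T0.Zf

/-!
# The curve over the field of rational functions
-/

open Polynomial

noncomputable section

namespace TZ

open WRes

variable {F : Type*} [Field F]

/-- The abscissa as a rational function of the parameter. -/
def zr (a e ξ : F) : RatFunc F :=
  zf (algebraMap F (RatFunc F) a) (algebraMap F (RatFunc F) e) (algebraMap F (RatFunc F) ξ)
    RatFunc.X

theorem zr_agr (a e ξ : F) : Agr (zr a e ξ) (fun r => zf a e ξ r) := by
  unfold zr zf zn qq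
  exact (((((Agr.const a).mul (Agr.X'.pow 2)).add (((Agr.const a).pow 2).div (Agr.nat 3))).mul
    (Agr.const ξ)).add (((((Agr.nat 2).mul (Agr.const a)).mul Agr.X').add
      ((Agr.nat 3).mul (Agr.const e))).mul (((Agr.const ξ).pow 2).add
        (((Agr.nat 2).mul (Agr.const a)).div (Agr.nat 3))))).neg.div
    ((((Agr.const a).mul (Agr.X'.pow 2)).add (((Agr.nat 3).mul (Agr.const e)).mul Agr.X')).sub
      (((Agr.const a).pow 2).div (Agr.nat 3)))

theorem alC (c : F) : algebraMap F[X] (RatFunc F) (C c) = algebraMap F (RatFunc F) c :=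
  (IsScalarTower.algebraMap_apply F F[X] (RatFunc F) c).symm

/-- A quadratic polynomial with a nonzero coefficient is nonzero. -/
theorem quad_ne {c0 c1 c2 : F} (h : c2 ≠ 0 ∨ c1 ≠ 0) :
    algebraMap F (RatFunc F) c2 * RatFunc.X ^ 2 + algebraMap F (RatFunc F) c1 * RatFunc.X +
      algebraMap F (RatFunc F) c0 ≠ 0 := by
  intro h0
  have h1 : algebraMap F[X] (RatFunc F) (C c2 * X ^ 2 + C c1 * X + C c0) = 0 := by
    rw [map_add, map_add, map_mul, map_mul, map_pow, RatFunc.algebraMap_X, alC, alC, alC]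
    exact h0
  have h2 : (C c2 * X ^ 2 + C c1 * X + C c0 : F[X]) = 0 :=
    (RatFunc.algebraMap_injective F) (h1.trans (map_zero _).symm)
  rcases h with h | h
  · apply h
    have := congrArg (fun p => coeff p 2) h2
    simpa [coeff_X, coeff_C] using this
  · apply h
    have := congrArg (fun p => coeff p 1) h2
    simpa [coeff_X, coeff_C] using this

variable [CharZero F]

theorem qq_ne {a e : F} (ha : a ≠ 0) : qq (algebraMap F (RatFunc F) a)
    (algebraMap F (RatFunc F) e) RatFunc.X ≠ 0 := by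
  have h1 := quad_ne (c0 := -(a ^ 2 / 3)) (c1 := 3 * e) (c2 := a) (Or.inl ha)
  intro h2
  apply h1
  unfold qq at h2
  rw [map_neg, map_div₀, map_pow, map_mul, map_ofNat]
  linear_combination h2

/-- The abscissa is not constant. -/
theorem zr_dX {a e ξ : F} (ha : a ≠ 0) (hd : 4 * a ^ 3 + 27 * e ^ 2 ≠ 0) :
    dX (zr a e ξ) ≠ 0 := by
  set r : RatFunc F := RatFunc.X with hr
  set α := algebraMap F (RatFunc F) a with hα
  set ε := algebraMap F (RatFunc F) e with hε
  set x := algebraMap F (RatFunc F) ξ with hx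
  have hDr : dX r = 1 := dX_X
  have hDα : dX α = 0 := dX.map_algebraMap a
  have hDε : dX ε = 0 := dX.map_algebraMap e
  have hDx : dX x = 0 := dX.map_algebraMap ξ
  set N : RatFunc F := zn α ε x r with hN
  set Q : RatFunc F := qq α ε r with hQ
  have hQ0 : Q ≠ 0 := qq_ne ha
  set c0 : F := a ^ 2 / 3 * ξ + 3 * e * (ξ ^ 2 + 2 * a / 3) with hc0
  have hN' : N = algebraMap F (RatFunc F) (a * ξ) * r ^ 2 +
      algebraMap F (RatFunc F) (2 * a * (ξ ^ 2 + 2 * a / 3)) * r + algebraMap F (RatFunc F) c0 := by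
    rw [hN, hc0]
    unfold zn
    simp only [map_add, map_mul, map_pow, map_div₀, map_ofNat]
    ring
  have hQ' : Q = α * r ^ 2 + algebraMap F (RatFunc F) (3 * e) * r -
      algebraMap F (RatFunc F) (a ^ 2 / 3) := by
    rw [hQ]
    unfold qq
    simp only [map_mul, map_pow, map_div₀, map_ofNat]
    ring
  have hDN : dX N = 2 * algebraMap F (RatFunc F) (a * ξ) * r +
      algebraMap F (RatFunc F) (2 * a * (ξ ^ 2 + 2 * a / 3)) := by
    rw [hN', map_add, map_add, Derivation.leibniz, Derivation.leibniz, Derivation.leibniz_pow,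
      Derivation.map_algebraMap, Derivation.map_algebraMap, Derivation.map_algebraMap, hDr]
    simp only [smul_eq_mul, nsmul_eq_mul]
    push_cast
    ring
  have hDQ : dX Q = 2 * α * r + algebraMap F (RatFunc F) (3 * e) := by
    rw [hQ', map_sub, map_add, Derivation.leibniz, Derivation.leibniz, Derivation.leibniz_pow,
      hDα, Derivation.map_algebraMap, Derivation.map_algebraMap, hDr]
    simp only [smul_eq_mul, nsmul_eq_mul]
    push_cast
    ring
  have hz : zr a e ξ * Q = -N := by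
    show -N / Q * Q = -N
    exact div_mul_cancel₀ _ hQ0
  have hDz : dX (zr a e ξ) * Q ^ 2 = N * dX Q - dX N * Q := by
    have h1 := congrArg dX hz
    rw [Derivation.leibniz, map_neg] at h1
    simp only [smul_eq_mul] at h1
    have h2 : dX (zr a e ξ) * Q ^ 2 = (Q * dX (zr a e ξ)) * Q := by ring
    rw [h2]
    linear_combination Q * h1 - dX Q * hz
  intro h0
  rw [h0, zero_mul] at hDz
  have h1 := quad_ne (c2 := -(3 * a * e * ξ - 2 * a ^ 2 * (ξ ^ 2 + 2 * a / 3)))
    (c1 := 4 * a ^ 3 / 3 * ξ + 6 * a * e * (ξ ^ 2 + 2 * a / 3))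
    (c0 := 2 * a ^ 3 / 3 * (ξ ^ 2 + 2 * a / 3) + a ^ 2 * e * ξ +
      9 * e ^ 2 * (ξ ^ 2 + 2 * a / 3)) (by
      by_contra hcon
      push Not at hcon
      obtain ⟨u1, u2⟩ := hcon
      have u1' : 3 * e * ξ - 2 * a * (ξ ^ 2 + 2 * a / 3) = 0 := by
        refine mul_left_cancel₀ ha ?_
        linear_combination -u1
      have u2' : 2 * a ^ 2 * ξ + 9 * e * (ξ ^ 2 + 2 * a / 3) = 0 := by
        refine mul_left_cancel₀ ha ?_
        linear_combination (3 / 2 : F) * u2
      have u3 : (4 * a ^ 3 + 27 * e ^ 2) * ξ = 0 := by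
        linear_combination 9 * e * u1' + 2 * a * u2'
      have hξ0 : ξ = 0 := (mul_eq_zero.1 u3).resolve_left hd
      rw [hξ0] at u1'
      have u4 : a * a = 0 := by linear_combination (-3 / 4 : F) * u1'
      exact ha (mul_self_eq_zero.1 u4))
  apply h1
  rw [hDN, hDQ, hN', hQ', hc0] at hDz
  simp only [map_add, map_mul, map_pow, map_div₀, map_ofNat, map_neg, map_sub] at hDz ⊢
  linear_combination -hDz

/-- The relation of the differentials of two conjugates. -/
theorem zr_pair {a e ξ ξ' : F} (ha : a ≠ 0) (hd : 4 * a ^ 3 + 27 * e ^ 2 ≠ 0)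
    (hξ : ξ ^ 3 + a * ξ + e = 0) (hξ' : ξ ^ 2 + ξ * ξ' + ξ' ^ 2 + a = 0) :
    ∃ v : RatFunc F, Transcendental F (v ^ 2) ∧ dX (zr a e ξ') = v * dX (zr a e ξ) := by
  have hDz := zr_dX (ξ := ξ) ha hd
  have hDw := zr_dX (ξ := ξ') ha hd
  set z := zr a e ξ with hz
  set w := zr a e ξ' with hw
  set α := algebraMap F (RatFunc F) a with hα
  have hα0 : α ≠ 0 := (_root_.map_ne_zero _).2 ha
  have hDα : dX α = 0 := dX.map_algebraMap a
  have hc : z ^ 2 + z * w + w ^ 2 = -α := by
    refine zf_conic ?_ ?_ (qq_ne ha)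
    · rw [← map_pow, ← map_mul, ← map_add, ← map_add, hξ, map_zero]
    · rw [← map_pow, ← map_pow, ← map_mul, ← map_add, ← map_add, ← map_add, hξ', map_zero]
  have hDc : (2 * z + w) * dX z + (z + 2 * w) * dX w = 0 := by
    have h1 := congrArg dX hc
    rw [map_add, map_add, map_neg, Derivation.leibniz_pow, Derivation.leibniz_pow,
      Derivation.leibniz, hDα] at h1
    simp only [smul_eq_mul, nsmul_eq_mul] at h1
    push_cast at h1
    linear_combination h1
  have hne : z + 2 * w ≠ 0 := by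
    intro h1
    have h2 : (2 * z + w) * dX z = 0 := by
      rw [h1, zero_mul, add_zero] at hDc
      exact hDc
    have h3 : 2 * z + w = 0 := (mul_eq_zero.1 h2).resolve_right hDz
    have h4 : w = 0 := by
      have h5 : (3 : RatFunc F) * w = 0 := by linear_combination 2 * h1 - h3
      exact (mul_eq_zero.1 h5).resolve_left (by norm_num)
    rw [h4, map_zero] at hDw
    exact hDw rfl
  set v : RatFunc F := -(2 * z + w) / (z + 2 * w) with hv
  have hvw : v * (z + 2 * w) = -(2 * z + w) := div_mul_cancel₀ _ hne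
  have hDwv : dX w = v * dX z := by
    refine mul_left_cancel₀ hne ?_
    linear_combination hDc - dX z * hvw
  refine ⟨v, ?_, hDwv⟩
  have hDv : dX v * (z + 2 * w) = -2 * (1 + v + v ^ 2) * dX z := by
    have hD2 : dX (2 : RatFunc F) = 0 := by
      have := (dX (F := F)).map_natCast 2
      exact_mod_cast this
    have h1 := congrArg dX hvw
    rw [Derivation.leibniz, map_neg, map_add, map_add, Derivation.leibniz, Derivation.leibniz,
      hD2] at h1
    simp only [smul_eq_mul, mul_zero, add_zero] at h1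
    rw [hDwv] at h1
    linear_combination h1
  have hv3 : (1 + v + v ^ 2) * (z + 2 * w) ^ 2 = -3 * α := by
    have h1 : v ^ 2 * (z + 2 * w) ^ 2 = (2 * z + w) ^ 2 := by
      rw [← mul_pow, hvw]
      ring
    linear_combination h1 + (z + 2 * w) * hvw + 3 * hc
  have hDv0 : dX v ≠ 0 := by
    intro h0
    rw [h0, zero_mul] at hDv
    have h1 : (1 + v + v ^ 2) ≠ 0 := by
      intro h2
      rw [h2, zero_mul] at hv3
      exact mul_ne_zero (by norm_num) hα0 hv3.symm
    exact mul_ne_zero (mul_ne_zero (by norm_num) h1) hDz hDv.symm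
  have hv0 : v ≠ 0 := by
    intro h0
    rw [h0, map_zero] at hDv0
    exact hDv0 rfl
  refine transc_of_dX ?_
  rw [Derivation.leibniz_pow]
  simp only [smul_eq_mul, nsmul_eq_mul]
  push_cast
  exact mul_ne_zero two_ne_zero (mul_ne_zero (pow_ne_zero _ hv0) hDv0)

theorem zr_ff {a b e ξ : F} (ha : a ≠ 0) (hξ : ξ ^ 3 + a * ξ + e = 0) :
    ff (algebraMap F (RatFunc F) a) (algebraMap F (RatFunc F) b) (zr a e ξ) =
      nf (algebraMap F (RatFunc F) a) (algebraMap F (RatFunc F) b)
        (algebraMap F (RatFunc F) e) RatFunc.X := by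
  refine ff_zf ?_ (qq_ne ha)
  rw [← map_pow, ← map_mul, ← map_add, ← map_add, hξ, map_zero]

variable {a b e ξ ξ' : F}

/-- No curve contains all multiples of infinitely many points of the curve. -/
theorem zr_values (ha : a ≠ 0) (hd : 4 * a ^ 3 + 27 * e ^ 2 ≠ 0)
    (hξ : ξ ^ 3 + a * ξ + e = 0) (hξ' : ξ ^ 2 + ξ * ξ' + ξ' ^ 2 + a = 0) (G : F[X][X])
    (hG : ∀ j, {r : F | ev ((dl a b)^[j] (zf a e ξ r)) ((dl a b)^[j] (zf a e ξ' r))
      G = 0}.Infinite) : G = 0 := by
  obtain ⟨v, hv, hDw⟩ := zr_pair ha hd hξ hξ'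
  have h3 : ξ' ^ 3 + a * ξ' + e = 0 := by linear_combination (ξ' - ξ) * hξ' + hξ
  refine dyn a b a b (zr_dX (ξ := ξ) ha hd) (zr_dX (ξ := ξ') ha hd) hv ?_ G fun j =>
    (((zr_agr a e ξ).it' a b j).ev' ((zr_agr a e ξ').it' a b j) G).eq_zero (hG j)
  rw [hDw, zr_ff ha hξ, zr_ff ha h3]
  ring

/-- Off a finite set of parameters the multiples have nonzero ordinates. -/
theorem zr_ff_finite (ha : a ≠ 0) (hd : 4 * a ^ 3 + 27 * e ^ 2 ≠ 0) (j : ℕ) :
    {r : F | ff a b ((dl a b)^[j] (zf a e ξ r)) = 0}.Finite :=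
  (((zr_agr a e ξ).it' a b j).ff' a b).finite_zeros
    (ff_ne (transc_of_dX (it_dX a b (zr_dX (ξ := ξ) ha hd) j).1))

/-- Off a finite set of parameters the multiples of conjugates are different. -/
theorem zr_ne_finite (ha : a ≠ 0) (hd : 4 * a ^ 3 + 27 * e ^ 2 ≠ 0)
    (hξ : ξ ^ 3 + a * ξ + e = 0) (hξ' : ξ ^ 2 + ξ * ξ' + ξ' ^ 2 + a = 0) (j : ℕ) :
    {r : F | (dl a b)^[j] (zf a e ξ r) = (dl a b)^[j] (zf a e ξ' r)}.Finite := by
  have h1 := (((zr_agr a e ξ).it' a b j).sub ((zr_agr a e ξ').it' a b j)).finite_zeros (by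
    intro h0
    have h0' : it a b (zr a e ξ) j = it a b (zr a e ξ') j := sub_eq_zero.1 h0
    obtain ⟨v, hv, hDw⟩ := zr_pair ha hd hξ hξ'
    have h3 : ξ' ^ 3 + a * ξ' + e = 0 := by linear_combination (ξ' - ξ) * hξ' + hξ
    obtain ⟨k1, k2⟩ := it_dX a b (zr_dX (ξ := ξ) ha hd) j
    obtain ⟨-, k3⟩ := it_dX a b (zr_dX (ξ := ξ') ha hd) j
    rw [← h0', zr_ff ha h3, ← zr_ff (b := b) ha hξ, k2, hDw] at k3
    have hf := ff_ne (a := a) (b := b) (transc_of_dX k1)
    have hz := zr_dX (ξ := ξ) ha hd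
    have h4 : v ^ 2 = 1 := by
      have h5 : (4 : RatFunc F) ^ j * dX (zr a e ξ) ^ 2 *
          ff (algebraMap F (RatFunc F) a) (algebraMap F (RatFunc F) b) (it a b (zr a e ξ) j) ≠ 0 :=
        mul_ne_zero (mul_ne_zero (pow_ne_zero _ (by norm_num)) (pow_ne_zero _ hz)) hf
      refine mul_left_cancel₀ h5 ?_
      linear_combination -k3
    apply hv
    rw [h4]
    exact isAlgebraic_one)
  refine h1.subset fun r hr => ?_
  exact sub_eq_zero.2 hr

end TZ
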