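import Pool.Agent.H.MP_89f84f_ag.T0.Emb
import Pool.Agent.H.MP_89f84f_ag.Agr

/-!
# The rational curve of horizontal triples

For a root `ξ` of `T³ + a T + e` and a parameter `r` the element `zf a e ξ r` has trace zero and second
symmetric function `a`, hence `f` takes the value `nf a b e r`, which does not depend on `ξ`.
-/

open Polynomial

namespace TZ

open WRes

section field

variable {A : Type*} [Field A]

/-- The denominator. -/
def qq (a e r : A) : A := a * r ^ 2 + 3 * e * r - a ^ 2 / 3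

/-- The numerator. -/
def zn (a e ξ r : A) : A :=
  (a * r ^ 2 + a ^ 2 / 3) * ξ + (2 * a * r + 3 * e) * (ξ ^ 2 + 2 * a / 3)

/-- The abscissa with parameter `r`. -/
def zf (a e ξ r : A) : A := -zn a e ξ r / qq a e r

/-- The numerator of `nf - b`. -/
def gf (a e r : A) : A :=
  e * (a * r ^ 2 + a ^ 2 / 3) ^ 3 - 2 * a ^ 2 / 3 * (a * r ^ 2 + a ^ 2 / 3) ^ 2 * (2 * a * r + 3 * e)
    - a * e * (a * r ^ 2 + a ^ 2 / 3) * (2 * a * r + 3 * e) ^ 2 -
    (e ^ 2 + 2 * a ^ 3 / 27) * (2 * a * r + 3 * e) ^ 3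

/-- The square of the ordinate. -/
def nf (a b e r : A) : A := gf a e r / qq a e r ^ 3 + b

theorem ff_zf [CharZero A] {a b e ξ r : A} (hξ : ξ ^ 3 + a * ξ + e = 0) (hq : qq a e r ≠ 0) :
    ff a b (zf a e ξ r) = nf a b e r := by
  have h3 : ξ ^ 3 = -a * ξ - e := by linear_combination hξ
  have h4 : ξ ^ 4 = -a * ξ ^ 2 - e * ξ := by linear_combination ξ * hξ
  have h5 : ξ ^ 5 = -a * (-a * ξ - e) - e * ξ ^ 2 := by linear_combination ξ ^ 2 * hξ - a * hξ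
  have h6 : ξ ^ 6 = (-a * ξ - e) ^ 2 := by rw [← h3]; ring
  have key : -zn a e ξ r ^ 3 - a * zn a e ξ r * qq a e r ^ 2 - gf a e r = 0 := by
    unfold zn qq gf
    ring_nf
    rw [h6, h5, h4, h3]
    ring
  unfold ff nf zf
  field_simp
  linear_combination key

/-- The relation between two conjugates. -/
theorem zf_conic [CharZero A] {a e ξ ξ' r : A} (hξ : ξ ^ 3 + a * ξ + e = 0)
    (hξ' : ξ ^ 2 + ξ * ξ' + ξ' ^ 2 + a = 0) (hq : qq a e r ≠ 0) :
    zf a e ξ r ^ 2 + zf a e ξ r * zf a e ξ' r + zf a e ξ' r ^ 2 = -a := by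
  have key : zn a e ξ r ^ 2 + zn a e ξ r * zn a e ξ' r + zn a e ξ' r ^ 2 + a * qq a e r ^ 2 = 0 := by
    have h1 : ξ * ξ' * (ξ + ξ') = e := by linear_combination ξ * hξ' - hξ
    have h3 : ξ' ^ 3 + a * ξ' + e = 0 := by
      linear_combination (ξ' - ξ) * hξ' + hξ
    have A1 : 2 * ξ * (ξ ^ 2 + 2 * a / 3) + ξ * (ξ' ^ 2 + 2 * a / 3) +
        ξ' * (ξ ^ 2 + 2 * a / 3) + 2 * ξ' * (ξ' ^ 2 + 2 * a / 3) = -3 * e := by
      linear_combination 2 * hξ + 2 * h3 + h1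
    have A2 : (ξ ^ 2 + 2 * a / 3) ^ 2 + (ξ ^ 2 + 2 * a / 3) * (ξ' ^ 2 + 2 * a / 3) +
        (ξ' ^ 2 + 2 * a / 3) ^ 2 = a ^ 2 / 3 := by
      linear_combination (ξ ^ 2 - ξ * ξ' + ξ' ^ 2 + a) * hξ'
    unfold zn qq
    linear_combination (a * r ^ 2 + a ^ 2 / 3) ^ 2 * hξ' +
      (a * r ^ 2 + a ^ 2 / 3) * (2 * a * r + 3 * e) * A1 + (2 * a * r + 3 * e) ^ 2 * A2
  unfold zf
  field_simp
  linear_combination key

end field

end TZ
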